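/-
MP_18d1ca_lc: families of matchings all of whose unions with a fixed matching are single cycles.
-/
import Mathlib

set_option linter.all false

namespace Pool.Agent.MonCyc

open Finset

variable {α : Type*} [DecidableEq α] [Fintype α]

/-- one step -/
def Step (m0 : α → α) (f : Fin 3 → α → α) (a b : α) : Prop := b = m0 a ∨ ∃ i, b = f i a

/-- reachability -/
def Reach (m0 : α → α) (f : Fin 3 → α → α) : α → α → Prop := Relation.ReflTransGen (Step m0 f)

/-- `m` is an involution whose set of non-fixed points is `U` -/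
structure IsMat (U : Finset α) (m : α → α) : Prop where
  inv : ∀ u, m (m u) = u
  mem : ∀ u, m u ≠ u ↔ u ∈ U

/-- the points of an instance -/
def al (U : Fin 3 → Finset α) : Finset α := univ.biUnion U

theorem mem_al {U : Fin 3 → Finset α} {u : α} : u ∈ al U ↔ ∃ i, u ∈ U i := by simp [al]

/-- an instance -/
structure Inst (m0 : α → α) (U : Fin 3 → Finset α) (M : Fin 3 → Finset (α → α)) : Prop where
  disj : ∀ i j u, u ∈ U i → u ∈ U j → i = j
  mat0 : IsMat (al U) m0
  mat : ∀ i, ∀ m ∈ M i, IsMat (U i) m
  conn : ∀ f : Fin 3 → α → α, (∀ i, f i ∈ M i) → ∀ u ∈ al U, ∀ v ∈ al U, Reach m0 f u v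

theorem IsMat.map_mem {U : Finset α} {m : α → α} (h : IsMat U m) {u : α} (hu : u ∈ U) :
    m u ∈ U := by
  rw [← h.mem, h.inv]
  exact fun e => (h.mem u).2 hu e.symm

theorem IsMat.fix {U : Finset α} {m : α → α} (h : IsMat U m) {u : α} (hu : u ∉ U) : m u = u := by
  by_contra hc
  exact hu ((h.mem u).1 hc)

theorem IsMat.ne {U : Finset α} {m : α → α} (h : IsMat U m) {u : α} (hu : u ∈ U) : m u ≠ u :=
  (h.mem u).2 hu

theorem IsMat.inj {U : Finset α} {m : α → α} (h : IsMat U m) {u v : α} (e : m u = m v) : u = v := by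
  rw [← h.inv u, e, h.inv]

/-- removal of the pair `x, y` from a matching -/
def rem (x y : α) (m : α → α) : α → α := fun u => if u = x ∨ u = y then u else m u

/-- splicing out `x, y` from the fixed matching -/
def spl (m0 : α → α) (x y : α) : α → α := fun u =>
  if u = x ∨ u = y then u else if m0 u = x then m0 y else if m0 u = y then m0 x else m0 u

/-- new point sets -/
def U' (U : Fin 3 → Finset α) (x y : α) : Fin 3 → Finset α := fun j => U j \ {x, y}

/-- new families -/
def M' (M : Fin 3 → Finset (α → α)) (i : Fin 3) (x y : α) : Fin 3 → Finset (α → α) := fun j =>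
  ((M j).filter (fun m => j = i → m x = y)).image (rem x y)

section contract

variable {m0 : α → α} {U : Fin 3 → Finset α} {M : Fin 3 → Finset (α → α)} (I : Inst m0 U M)
  {i : Fin 3} {x y : α}

include I

theorem Inst.pres (hx : x ∈ U i) (hy : y ∈ U i) {j : Fin 3} {m : α → α} (hm : m ∈ M j)
    (h : j = i → m x = y) : (m x = y ∧ m y = x) ∨ (m x = x ∧ m y = y) := by
  by_cases hj : j = i
  · left
    refine ⟨h hj, ?_⟩
    rw [← h hj, (I.mat j m hm).inv]
  · right
    constructor
    · exact (I.mat j m hm).fix (fun h' => hj (I.disj _ _ _ h' hx))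
    · exact (I.mat j m hm).fix (fun h' => hj (I.disj _ _ _ h' hy))

theorem Inst.rem_isMat (hx : x ∈ U i) (hy : y ∈ U i) {j : Fin 3} {m : α → α} (hm : m ∈ M j)
    (h : j = i → m x = y) : IsMat (U' U x y j) (rem x y m) := by
  have hp := I.pres hx hy hm h
  have hmat := I.mat j m hm
  have key : ∀ u, ¬ (u = x ∨ u = y) → ¬ (m u = x ∨ m u = y) := by
    rintro u hu (e | e)
    · rcases hp with ⟨h1, h2⟩ | ⟨h1, h2⟩
      · exact hu (Or.inr (hmat.inj (e.trans h2.symm)))
      · exact hu (Or.inl (hmat.inj (e.trans h1.symm)))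
    · rcases hp with ⟨h1, h2⟩ | ⟨h1, h2⟩
      · exact hu (Or.inl (hmat.inj (e.trans h1.symm)))
      · exact hu (Or.inr (hmat.inj (e.trans h2.symm)))
  constructor
  · intro u
    by_cases hu : u = x ∨ u = y
    · simp only [rem, if_pos hu]
    · simp only [rem, if_neg hu, if_neg (key u hu), hmat.inv]
  · intro u
    by_cases hu : u = x ∨ u = y
    · simp only [rem, if_pos hu, U', mem_sdiff, mem_insert, mem_singleton, hu]
      simp
    · simp only [rem, if_neg hu, U', mem_sdiff, mem_insert, mem_singleton, hu, not_false_eq_true,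
        and_true]
      exact hmat.mem u

theorem Inst.spl_isMat (hx : x ∈ U i) (hy : y ∈ U i) (hxy : x ≠ y) (hne : y ≠ m0 x) :
    IsMat (al (U' U x y)) (spl m0 x y) := by
  have hm := I.mat0
  have hxa : x ∈ al U := mem_al.2 ⟨i, hx⟩
  have hya : y ∈ al U := mem_al.2 ⟨i, hy⟩
  have h1 : m0 x ≠ x := hm.ne hxa
  have h2 : m0 y ≠ y := hm.ne hya
  have h3 : m0 y ≠ x := fun e => hne (by rw [← e, hm.inv])
  have h4 : m0 x ≠ m0 y := fun e => hxy (hm.inj e)
  have hinv := hm.inv
  constructor
  · intro u
    by_cases hu : u = x ∨ u = y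
    · simp only [spl, if_pos hu]
    · by_cases hu1 : m0 u = x
      · have : u = m0 x := by rw [← hu1, hinv]
        subst this
        simp only [spl, if_neg hu, hinv, if_true, h3, h2, or_self, if_false]
        simp [hxy.symm]
      · by_cases hu2 : m0 u = y
        · have : u = m0 y := by rw [← hu2, hinv]
          subst this
          simp only [spl, if_neg hu, hinv, if_true, hxy.symm, if_false]
          simp [h1, hne.symm]
        · simp only [spl, if_neg hu, if_neg hu1, if_neg hu2]
          have h5 : ¬ (m0 u = x ∨ m0 u = y) := by tauto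
          rw [if_neg h5, hinv]
          have h6 : u ≠ x := fun e => hu (Or.inl e)
          have h7 : u ≠ y := fun e => hu (Or.inr e)
          simp [h6, h7]
  · intro u
    have hal : u ∈ al (U' U x y) ↔ u ∈ al U ∧ ¬ (u = x ∨ u = y) := by
      simp only [mem_al, U', mem_sdiff, mem_insert, mem_singleton]
      constructor
      · rintro ⟨j, h1, h2⟩
        exact ⟨⟨j, h1⟩, h2⟩
      · rintro ⟨⟨j, h1⟩, h2⟩
        exact ⟨j, h1, h2⟩
    rw [hal]
    by_cases hu : u = x ∨ u = y
    · simp only [spl, if_pos hu]
      simp [hu]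
    · by_cases hu1 : m0 u = x
      · have : u = m0 x := by rw [← hu1, hinv]
        subst this
        simp only [spl, if_neg hu, hinv, if_true]
        simp only [hu, not_false_eq_true, and_true]
        constructor
        · intro _
          exact hm.map_mem hxa
        · intro _
          exact h4.symm
      · by_cases hu2 : m0 u = y
        · have : u = m0 y := by rw [← hu2, hinv]
          subst this
          simp only [spl, if_neg hu, hinv, if_true, hxy.symm, if_false]
          simp only [hu, not_false_eq_true, and_true]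
          constructor
          · intro _
            exact hm.map_mem hya
          · intro _
            exact h4
        · simp only [spl, if_neg hu, if_neg hu1, if_neg hu2, hu, not_false_eq_true, and_true]
          exact hm.mem u

theorem Inst.mem_M' {j : Fin 3} {m : α → α} (hm : m ∈ M' M i x y j) :
    ∃ m1 ∈ M j, (j = i → m1 x = y) ∧ m = rem x y m1 := by
  simp only [M', mem_image, mem_filter] at hm
  obtain ⟨m1, ⟨h1, h2⟩, rfl⟩ := hm
  exact ⟨m1, h1, h2, rfl⟩

theorem Inst.reach (hx : x ∈ U i) (hy : y ∈ U i) (hxy : x ≠ y) (hne : y ≠ m0 x)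
    {f f' : Fin 3 → α → α} (hf : ∀ j, f j ∈ M j) (hfi : f i x = y)
    (hf' : ∀ j, f' j = rem x y (f j)) {u v : α} (hu : ¬ (u = x ∨ u = y)) (h : Reach m0 f u v) :
    (¬ (v = x ∨ v = y) → Reach (spl m0 x y) f' u v) ∧
      (v = x → Reach (spl m0 x y) f' u (m0 x)) ∧ (v = y → Reach (spl m0 x y) f' u (m0 y)) := by
  have hm := I.mat0
  have hinv := hm.inv
  have hxa : x ∈ al U := mem_al.2 ⟨i, hx⟩
  have hya : y ∈ al U := mem_al.2 ⟨i, hy⟩
  have h1 : m0 x ≠ x := hm.ne hxa
  have h2 : m0 y ≠ y := hm.ne hya
  have h3 : m0 y ≠ x := fun e => hne (by rw [← e, hm.inv])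
  have s1 : spl m0 x y (m0 x) = m0 y := by
    simp only [spl, hinv, if_true]
    rw [if_neg]
    rintro (e | e)
    · exact h1 e
    · exact hne e.symm
  have s2 : spl m0 x y (m0 y) = m0 x := by
    simp only [spl, hinv, if_true]
    rw [if_neg, if_neg hxy.symm]
    rintro (e | e)
    · exact h3 e
    · exact h2 e
  induction h with
  | refl => exact ⟨fun _ => Relation.ReflTransGen.refl, fun e => absurd (Or.inl e) hu,
      fun e => absurd (Or.inr e) hu⟩
  | @tail b c hb hc ih =>
    obtain ⟨ih1, ih2, ih3⟩ := ih
    have hpres : ∀ j, (f j x = y ∧ f j y = x) ∨ (f j x = x ∧ f j y = y) := fun j =>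
      I.pres hx hy (hf j) (fun e => by rw [e]; exact hfi)
    by_cases hbx : b = x
    · subst hbx
      have r := ih2 rfl
      rcases hc with rfl | ⟨j, rfl⟩
      · exact ⟨fun _ => r, fun e => absurd e h1, fun e => absurd e.symm hne⟩
      · rcases hpres j with ⟨e1, e2⟩ | ⟨e1, e2⟩
        · rw [e1]
          exact ⟨fun e => absurd (Or.inr rfl) e, fun e => absurd e.symm hxy,
            fun _ => r.tail (Or.inl s1.symm)⟩
        · rw [e1]
          exact ⟨fun e => absurd (Or.inl rfl) e, fun _ => r, fun e => absurd e hxy⟩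
    · by_cases hby : b = y
      · subst hby
        have r := ih3 rfl
        rcases hc with rfl | ⟨j, rfl⟩
        · exact ⟨fun _ => r, fun e => absurd e h3, fun e => absurd e h2⟩
        · rcases hpres j with ⟨e1, e2⟩ | ⟨e1, e2⟩
          · rw [e2]
            exact ⟨fun e => absurd (Or.inl rfl) e, fun _ => r.tail (Or.inl s2.symm),
              fun e => absurd e hxy⟩
          · rw [e2]
            exact ⟨fun e => absurd (Or.inr rfl) e, fun e => absurd e.symm hxy, fun _ => r⟩
      · have hb' : ¬ (b = x ∨ b = y) := by tauto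
        have r := ih1 hb'
        rcases hc with rfl | ⟨j, rfl⟩
        · refine ⟨fun e => ?_, fun e => ?_, fun e => ?_⟩
          · refine r.tail (Or.inl ?_)
            simp only [spl, if_neg hb']
            rw [if_neg (fun e' => e (Or.inl e')), if_neg (fun e' => e (Or.inr e'))]
          · have : b = m0 x := by rw [← e, hinv]
            rw [← this]; exact r
          · have : b = m0 y := by rw [← e, hinv]
            rw [← this]; exact r
        · have hne' : ¬ (f j b = x ∨ f j b = y) := by
            have hmat := I.mat j (f j) (hf j)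
            rintro (e | e)
            · rcases hpres j with ⟨e1, e2⟩ | ⟨e1, e2⟩
              · exact hb' (Or.inr (hmat.inj (e.trans e2.symm)))
              · exact hb' (Or.inl (hmat.inj (e.trans e1.symm)))
            · rcases hpres j with ⟨e1, e2⟩ | ⟨e1, e2⟩
              · exact hb' (Or.inl (hmat.inj (e.trans e1.symm)))
              · exact hb' (Or.inr (hmat.inj (e.trans e2.symm)))
          refine ⟨fun _ => ?_, fun e => absurd (Or.inl e) hne', fun e => absurd (Or.inr e) hne'⟩
          refine r.tail (Or.inr ⟨j, ?_⟩)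
          rw [hf' j]
          simp only [rem, if_neg hb']

theorem Inst.contract (hx : x ∈ U i) (hy : y ∈ U i) (hxy : x ≠ y) (hne : y ≠ m0 x) :
    Inst (spl m0 x y) (U' U x y) (M' M i x y) where
  disj := by
    intro j k u hj hk
    simp only [U', mem_sdiff] at hj hk
    exact I.disj j k u hj.1 hk.1
  mat0 := I.spl_isMat hx hy hxy hne
  mat := by
    intro j m hm
    obtain ⟨m1, h1, h2, rfl⟩ := I.mem_M' hm
    exact I.rem_isMat hx hy h1 h2
  conn := by
    intro f' hf' u hu v hv
    choose f hf1 hf2 hf3 using fun j => I.mem_M' (hf' j)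
    have hal : ∀ {u}, u ∈ al (U' U x y) → u ∈ al U ∧ ¬ (u = x ∨ u = y) := by
      intro u hu
      simp only [mem_al, U', mem_sdiff, mem_insert, mem_singleton] at hu
      obtain ⟨j, h1, h2⟩ := hu
      exact ⟨mem_al.2 ⟨j, h1⟩, h2⟩
    obtain ⟨hu1, hu2⟩ := hal hu
    obtain ⟨hv1, hv2⟩ := hal hv
    exact (I.reach hx hy hxy hne hf1 (hf2 i rfl) hf3 hu2 (I.conn f hf1 u hu1 v hv1)).1 hv2

/-- if `m0` and a member of `M i` agree on a point, there are only two points -/
theorem Inst.two {f : Fin 3 → α → α} (hf : ∀ j, f j ∈ M j) (hx : x ∈ U i)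
    (h : f i x = m0 x) : al U = {x, m0 x} := by
  have hm := I.mat0
  have hxa : x ∈ al U := mem_al.2 ⟨i, hx⟩
  have hmx : m0 x ∈ U i := by rw [← h]; exact (I.mat i _ (hf i)).map_mem hx
  have key : ∀ v, Reach m0 f x v → v = x ∨ v = m0 x := by
    intro v hv
    induction hv with
    | refl => exact Or.inl rfl
    | @tail b c hb hc ih =>
      rcases ih with rfl | rfl
      · rcases hc with rfl | ⟨j, rfl⟩
        · exact Or.inr rfl
        · by_cases hj : j = i
          · subst hj; exact Or.inr h
          · exact Or.inl ((I.mat j _ (hf j)).fix (fun h' => hj (I.disj _ _ _ h' hx)))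
      · rcases hc with rfl | ⟨j, rfl⟩
        · exact Or.inl (hm.inv _)
        · by_cases hj : j = i
          · subst hj
            left
            rw [← h, (I.mat j _ (hf j)).inv]
          · exact Or.inr ((I.mat j _ (hf j)).fix (fun h' => hj (I.disj _ _ _ h' hmx)))
  ext v
  simp only [mem_insert, mem_singleton]
  constructor
  · intro hv
    exact key v (I.conn f hf x hxa v hv)
  · rintro (rfl | rfl)
    · exact hxa
    · exact hm.map_mem hxa

/-- the analogous closed structure with four points -/
theorem Inst.four {f : Fin 3 → α → α} (hf : ∀ j, f j ∈ M j) {j : Fin 3} (hij : i ≠ j)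
    (hx : x ∈ U i) (hxj : m0 x ∈ U j) (h : f j (m0 x) = m0 (f i x)) :
    al U ⊆ {x, m0 x, f i x, m0 (f i x)} := by
  have hm := I.mat0
  have hxa : x ∈ al U := mem_al.2 ⟨i, hx⟩
  have hi := I.mat i _ (hf i)
  have hj := I.mat j _ (hf j)
  have hy : f i x ∈ U i := hi.map_mem hx
  have hyj : m0 (f i x) ∈ U j := by rw [← h]; exact hj.map_mem hxj
  have key : ∀ v, Reach m0 f x v → v = x ∨ v = m0 x ∨ v = f i x ∨ v = m0 (f i x) := by
    intro v hv
    induction hv with
    | refl => exact Or.inl rfl
    | @tail b c hb hc ih =>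
      have hfix : ∀ k, k ≠ i → ∀ u ∈ U i, f k u = u := fun k hk u hu =>
        (I.mat k _ (hf k)).fix (fun h' => hk (I.disj _ _ _ h' hu))
      have hfix' : ∀ k, k ≠ j → ∀ u ∈ U j, f k u = u := fun k hk u hu =>
        (I.mat k _ (hf k)).fix (fun h' => hk (I.disj _ _ _ h' hu))
      rcases ih with rfl | rfl | rfl | rfl
      · rcases hc with rfl | ⟨k, rfl⟩
        · tauto
        · by_cases hk : k = i
          · subst hk; tauto
          · left; exact hfix k hk _ hx
      · rcases hc with rfl | ⟨k, rfl⟩
        · left; exact hm.inv _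
        · by_cases hk : k = j
          · subst hk; right; right; right; exact h
          · right; left; exact hfix' k hk _ hxj
      · rcases hc with rfl | ⟨k, rfl⟩
        · tauto
        · by_cases hk : k = i
          · subst hk; left; exact hi.inv _
          · right; right; left; exact hfix k hk _ hy
      · rcases hc with rfl | ⟨k, rfl⟩
        · right; right; left; exact hm.inv _
        · by_cases hk : k = j
          · subst hk; right; left; rw [← h, hj.inv]
          · right; right; right; exact hfix' k hk _ hyj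
  intro v hv
  simp only [mem_insert, mem_singleton]
  exact key v (I.conn f hf x hxa v hv)

end contract

end Pool.Agent.MonCyc
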