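/-
MP_18d1ca_lc: the bound `∏ |M i| · 2 ^ k ≤ 2 · n !` for families of matchings all of whose unions
with a fixed matching are single cycles.
-/
import Pool.Agent.MonCyc.Port

set_option linter.all false

namespace Pool.Agent.MonCyc

open Finset

variable {α : Type*} [DecidableEq α] [Fintype α]

section expand

variable {m0 : α → α} {U : Fin 3 → Finset α} {M : Fin 3 → Finset (α → α)} (I : Inst m0 U M)
  {i : Fin 3} {x y : α}

include I

theorem Inst.rem_eq (hx : x ∈ U i) (hy : y ∈ U i) {j : Fin 3} (hj : j ≠ i) {m : α → α}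
    (hm : m ∈ M j) : rem x y m = m := by
  have h := I.mat j m hm
  funext u
  simp only [rem]
  by_cases hu : u = x ∨ u = y
  · rw [if_pos hu]
    rcases hu with rfl | rfl
    · exact (h.fix (fun h' => hj (I.disj _ _ _ h' hx))).symm
    · exact (h.fix (fun h' => hj (I.disj _ _ _ h' hy))).symm
  · rw [if_neg hu]

theorem Inst.M'_ne (hx : x ∈ U i) (hy : y ∈ U i) {j : Fin 3} (hj : j ≠ i) :
    M' M i x y j = M j := by
  ext m
  simp only [M', mem_image, mem_filter]
  constructor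
  · rintro ⟨m1, ⟨h1, h2⟩, rfl⟩
    rw [I.rem_eq hx hy hj h1]
    exact h1
  · intro hm
    exact ⟨m, ⟨hm, fun e => absurd e hj⟩, I.rem_eq hx hy hj hm⟩

theorem Inst.card_M'_self (hx : x ∈ U i) (hy : y ∈ U i) :
    (M' M i x y i).card = ((M i).filter (fun m => m x = y)).card := by
  have : ((M i).filter (fun m => i = i → m x = y)) = (M i).filter (fun m => m x = y) := by
    apply filter_congr
    intro m _
    simp
  rw [M', this]
  apply card_image_of_injOn
  intro m hm m1 hm1 e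
  simp only [coe_filter, Set.mem_setOf_eq] at hm hm1
  have h := I.mat i m hm.1
  have h1 := I.mat i m1 hm1.1
  funext u
  by_cases hu : u = x
  · rw [hu, hm.2, hm1.2]
  · by_cases hu' : u = y
    · rw [hu', ← hm.2, h.inv]
      rw [hm.2, ← hm1.2, h1.inv]
    · have := congrFun e u
      simp only [rem] at this
      rwa [if_neg (by tauto), if_neg (by tauto)] at this

theorem Inst.expand (hx : x ∈ U i) : ∏ j, (M j).card =
    ∑ y ∈ (M i).image (fun m => m x), ∏ j, (M' M i x y j).card := by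
  have h1 : (M i).card = ∑ y ∈ (M i).image (fun m => m x), ((M i).filter (fun m => m x = y)).card :=
    card_eq_sum_card_image _ _
  rw [← mul_prod_erase univ (fun j => (M j).card) (mem_univ i), h1, sum_mul]
  apply sum_congr rfl
  intro y hy
  have hyU : y ∈ U i := by
    obtain ⟨m, hm, rfl⟩ := mem_image.1 hy
    exact (I.mat i m hm).map_mem hx
  rw [← mul_prod_erase univ (fun j => (M' M i x y j).card) (mem_univ i), I.card_M'_self hx hyU]
  congr 1
  apply prod_congr rfl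
  intro j hj
  rw [I.M'_ne hx hyU (mem_erase.1 hj).1]

theorem Inst.card_le_one {j : Fin 3} (h : (U j).card ≤ 2) : (M j).card ≤ 1 := by
  rw [Finset.card_le_one]
  intro m hm m1 hm1
  have h1 := I.mat j m hm
  have h2 := I.mat j m1 hm1
  funext u
  by_cases hu : u ∈ U j
  · have h3 : ((U j).erase u).card ≤ 1 := by
      rw [card_erase_of_mem hu]; omega
    rw [Finset.card_le_one] at h3
    exact h3 _ (mem_erase.2 ⟨h1.ne hu, h1.map_mem hu⟩) _ (mem_erase.2 ⟨h2.ne hu, h2.map_mem hu⟩)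
  · rw [h1.fix hu, h2.fix hu]

theorem Inst.card_al : (al U).card = ∑ i, (U i).card := by
  rw [al]
  apply card_biUnion
  intro i _ j _ hij
  rw [Function.onFun, disjoint_left]
  intro u hi hj
  exact hij (I.disj i j u hi hj)

end expand

theorem al_U' (U : Fin 3 → Finset α) (x y : α) : al (U' U x y) = al U \ {x, y} := by
  ext u
  simp only [mem_al, U', mem_sdiff]
  constructor
  · rintro ⟨j, h1, h2⟩
    exact ⟨⟨j, h1⟩, h2⟩
  · rintro ⟨⟨j, h1⟩, h2⟩
    exact ⟨j, h1, h2⟩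

theorem card_al_U' {U : Fin 3 → Finset α} {i : Fin 3} {x y : α} (hx : x ∈ U i) (hy : y ∈ U i)
    (hxy : x ≠ y) {n : ℕ} (h : (al U).card = 2 * (n + 1)) : (al (U' U x y)).card = 2 * n := by
  rw [al_U', card_sdiff_of_subset, h, card_pair hxy]
  · omega
  · intro u hu
    simp only [mem_insert, mem_singleton] at hu
    rcases hu with rfl | rfl
    · exact mem_al.2 ⟨i, hx⟩
    · exact mem_al.2 ⟨i, hy⟩

/-- the points whose partner lies in another part -/
def mixed (m0 : α → α) (U : Fin 3 → Finset α) : Finset α :=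
  (al U).filter (fun u => ∀ i, u ∈ U i → m0 u ∉ U i)

theorem spl_val1 {m0 : α → α} {x y : α} (hinv : ∀ u, m0 (m0 u) = u) (h1 : m0 x ≠ x)
    (h2 : m0 x ≠ y) : spl m0 x y (m0 x) = m0 y := by
  simp only [spl, hinv, if_true]
  rw [if_neg]
  tauto

theorem spl_val2 {m0 : α → α} {x y : α} (hinv : ∀ u, m0 (m0 u) = u) (hxy : x ≠ y) (h1 : m0 y ≠ x)
    (h2 : m0 y ≠ y) : spl m0 x y (m0 y) = m0 x := by
  simp only [spl, hinv, if_true]
  rw [if_neg, if_neg hxy.symm]
  tauto

theorem spl_val3 {m0 : α → α} {x y u : α} (hinv : ∀ u, m0 (m0 u) = u) (h1 : u ≠ x) (h2 : u ≠ y)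
    (h3 : u ≠ m0 x) (h4 : u ≠ m0 y) : spl m0 x y u = m0 u := by
  simp only [spl]
  rw [if_neg, if_neg, if_neg]
  · intro e; exact h4 (by rw [← e, hinv])
  · intro e; exact h3 (by rw [← e, hinv])
  · tauto

section mixed

variable {m0 : α → α} {U : Fin 3 → Finset α} {M : Fin 3 → Finset (α → α)} (I : Inst m0 U M)
  {i : Fin 3} {x y : α}

include I

theorem Inst.mem_unique {j : Fin 3} (hx : x ∈ U i) : x ∈ U j ↔ j = i :=
  ⟨fun h => I.disj _ _ _ h hx, fun h => h ▸ hx⟩

theorem Inst.card_mixed (hx : x ∈ U i) (hmx : m0 x ∈ U i) (hy : y ∈ U i) (hxy : x ≠ y)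
    (hne : y ≠ m0 x) : (mixed (spl m0 x y) (U' U x y)).card = (mixed m0 U).card := by
  have hm := I.mat0
  have hinv := hm.inv
  have hxa : x ∈ al U := mem_al.2 ⟨i, hx⟩
  have hya : y ∈ al U := mem_al.2 ⟨i, hy⟩
  have h1 : m0 x ≠ x := hm.ne hxa
  have h2 : m0 y ≠ y := hm.ne hya
  have h3 : m0 y ≠ x := fun e => hne (by rw [← e, hinv])
  have h4 : m0 x ≠ m0 y := fun e => hxy (hm.inj e)
  have s1 := spl_val1 hinv h1 hne.symm
  have s2 := spl_val2 hinv hxy h3 h2
  have hU' : ∀ j u, u ∈ U' U x y j ↔ u ∈ U j ∧ u ≠ x ∧ u ≠ y := by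
    intro j u
    simp only [U', mem_sdiff, mem_insert, mem_singleton, not_or]
  have hal' : ∀ u, u ∈ al (U' U x y) ↔ u ∈ al U ∧ u ≠ x ∧ u ≠ y := by
    intro u
    rw [al_U']
    simp only [mem_sdiff, mem_insert, mem_singleton, not_or]
  have hmem : ∀ u, u ∈ mixed m0 U ↔ u ∈ al U ∧ ∀ j, u ∈ U j → m0 u ∉ U j := by
    intro u; simp [mixed]
  have hmem' : ∀ u, u ∈ mixed (spl m0 x y) (U' U x y) ↔ (u ∈ al U ∧ u ≠ x ∧ u ≠ y) ∧
      ∀ j, u ∈ U j → ¬ (spl m0 x y u ∈ U j ∧ spl m0 x y u ≠ x ∧ spl m0 x y u ≠ y) := by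
    intro u
    rw [mixed, mem_filter, hal']
    constructor
    · rintro ⟨g1, g2⟩
      refine ⟨g1, fun j hj => ?_⟩
      rw [← hU']
      exact g2 j ((hU' j u).2 ⟨hj, g1.2.1, g1.2.2⟩)
    · rintro ⟨g1, g2⟩
      refine ⟨g1, fun j hj => ?_⟩
      rw [hU']
      exact g2 j ((hU' j u).1 hj).1
  have hgen : ∀ u, u ≠ x → u ≠ y → u ≠ m0 x → u ≠ m0 y →
      (u ∈ mixed (spl m0 x y) (U' U x y) ↔ u ∈ mixed m0 U) := by
    intro u g1 g2 g3 g4
    rw [hmem, hmem', spl_val3 hinv g1 g2 g3 g4]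
    have g5 : m0 u ≠ x := fun e => g3 (by rw [← e, hinv])
    have g6 : m0 u ≠ y := fun e => g4 (by rw [← e, hinv])
    simp only [g1, g2, g5, g6, ne_eq, not_false_eq_true, and_true]
  have hx1 : x ∉ mixed m0 U := by
    rw [hmem]; rintro ⟨_, h⟩; exact h i hx hmx
  have hx2 : m0 x ∉ mixed m0 U := by
    rw [hmem]; rintro ⟨_, h⟩; exact h i hmx (by rw [hinv]; exact hx)
  have hx3 : x ∉ mixed (spl m0 x y) (U' U x y) := by
    rw [hmem']; rintro ⟨⟨_, h, _⟩, _⟩; exact h rfl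
  have hy3 : y ∉ mixed (spl m0 x y) (U' U x y) := by
    rw [hmem']; rintro ⟨⟨_, _, h⟩, _⟩; exact h rfl
  by_cases hmy : m0 y ∈ U i
  · have hy1 : y ∉ mixed m0 U := by
      rw [hmem]; rintro ⟨_, h⟩; exact h i hy hmy
    have hy2 : m0 y ∉ mixed m0 U := by
      rw [hmem]; rintro ⟨_, h⟩; exact h i hmy (by rw [hinv]; exact hy)
    have hx4 : m0 x ∉ mixed (spl m0 x y) (U' U x y) := by
      rw [hmem', s1]; rintro ⟨_, h⟩; exact h i hmx ⟨hmy, h3, h2⟩
    have hy4 : m0 y ∉ mixed (spl m0 x y) (U' U x y) := by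
      rw [hmem', s2]; rintro ⟨_, h⟩; exact h i hmy ⟨hmx, h1, hne.symm⟩
    congr 1
    ext u
    by_cases g1 : u = x
    · subst g1; tauto
    by_cases g2 : u = y
    · subst g2; tauto
    by_cases g3 : u = m0 x
    · subst g3; tauto
    by_cases g4 : u = m0 y
    · subst g4; tauto
    exact hgen u g1 g2 g3 g4
  · have hmya : m0 y ∈ al U := hm.map_mem hya
    have hmxa : m0 x ∈ al U := hm.map_mem hxa
    have hy1 : y ∈ mixed m0 U := by
      rw [hmem]
      refine ⟨hya, fun j hj => ?_⟩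
      rw [I.disj _ _ _ hj hy]; exact hmy
    have hy2 : m0 y ∈ mixed m0 U := by
      rw [hmem, hinv]
      refine ⟨hmya, fun j hj hyj => ?_⟩
      rw [I.disj _ _ _ hyj hy] at hj; exact hmy hj
    have hx4 : m0 x ∈ mixed (spl m0 x y) (U' U x y) := by
      rw [hmem', s1]
      refine ⟨⟨hmxa, h1, hne.symm⟩, fun j hj h => ?_⟩
      rw [I.disj _ _ _ hj hmx] at h
      exact hmy h.1
    have hy4 : m0 y ∈ mixed (spl m0 x y) (U' U x y) := by
      rw [hmem', s2]
      refine ⟨⟨hmya, h3, h2⟩, fun j hj h => ?_⟩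
      rw [I.disj _ _ _ h.1 hmx] at hj
      exact hmy hj
    have e : mixed (spl m0 x y) (U' U x y) = insert (m0 x) ((mixed m0 U).erase y) := by
      ext u
      rw [mem_insert, mem_erase]
      by_cases g1 : u = x
      · subst g1; tauto
      by_cases g2 : u = y
      · subst g2; tauto
      by_cases g3 : u = m0 x
      · subst g3; tauto
      by_cases g4 : u = m0 y
      · subst g4; tauto
      have := hgen u g1 g2 g3 g4
      tauto
    rw [e, card_insert_of_notMem, card_erase_of_mem hy1]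
    · have : 0 < (mixed m0 U).card := card_pos.2 ⟨y, hy1⟩
      omega
    · rw [mem_erase]; tauto

end mixed

/-- no pair of `m0` inside a part -/
def NoPure (m0 : α → α) (U : Fin 3 → Finset α) : Prop := ∀ i u, u ∈ U i → m0 u ∉ U i

theorem NoPure.mixed {m0 : α → α} {U : Fin 3 → Finset α} (h : NoPure m0 U) : mixed m0 U = al U := by
  ext u
  simp only [MonCyc.mixed, mem_filter]
  exact ⟨fun g => g.1, fun g => ⟨g, fun i hi => h i u hi⟩⟩

section nopure

variable {m0 : α → α} {U : Fin 3 → Finset α} {M : Fin 3 → Finset (α → α)} (I : Inst m0 U M)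
  {i : Fin 3} {x y : α}

include I

theorem Inst.nopure1 (hN : NoPure m0 U) (hx : x ∈ U i) (hy : y ∈ U i) (hxy : x ≠ y)
    {j l : Fin 3} (hjl : j ≠ l) (hmx : m0 x ∈ U j) (hmy : m0 y ∈ U l) :
    NoPure (spl m0 x y) (U' U x y) := by
  have hm := I.mat0
  have hinv := hm.inv
  have hij : i ≠ j := fun e => hN i x hx (by rw [e]; exact hmx)
  have hil : i ≠ l := fun e => hN i y hy (by rw [e]; exact hmy)
  have h1 : m0 x ≠ x := fun e => hN i x hx (by rw [e]; exact hx)
  have h2 : m0 y ≠ y := fun e => hN i y hy (by rw [e]; exact hy)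
  have h5 : m0 x ≠ y := fun e => hij (I.disj _ _ _ hy (by rw [← e]; exact hmx))
  have h3 : m0 y ≠ x := fun e => hil (I.disj _ _ _ hx (by rw [← e]; exact hmy))
  intro k u hu hs
  simp only [U', mem_sdiff, mem_insert, mem_singleton, not_or] at hu hs
  obtain ⟨hu, g1, g2⟩ := hu
  obtain ⟨hs, -, -⟩ := hs
  by_cases g3 : u = m0 x
  · rw [g3, spl_val1 hinv h1 h5] at hs
    rw [g3] at hu
    exact hjl ((I.disj _ _ _ hmx hu).trans (I.disj _ _ _ hs hmy))
  by_cases g4 : u = m0 y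
  · rw [g4, spl_val2 hinv hxy h3 h2] at hs
    rw [g4] at hu
    exact hjl ((I.disj _ _ _ hmx hs).trans (I.disj _ _ _ hu hmy))
  rw [spl_val3 hinv g1 g2 g3 g4] at hs
  exact hN k u hu hs

theorem Inst.nopure2 (hN : NoPure m0 U) (hx : x ∈ U i) (hy : y ∈ U i) (hxy : x ≠ y)
    {j : Fin 3} (hmx : m0 x ∈ U j) (hmy : m0 y ∈ U j) {z : α} (hz : z ∈ U j)
    (hz1 : z ≠ m0 x) (hz2 : z ≠ m0 y) :
    NoPure (spl (spl m0 x y) (m0 x) z) (U' (U' U x y) (m0 x) z) := by
  have hm := I.mat0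
  have hinv := hm.inv
  have hij : i ≠ j := fun e => hN i x hx (by rw [e]; exact hmx)
  have h1 : m0 x ≠ x := fun e => hN i x hx (by rw [e]; exact hx)
  have h2 : m0 y ≠ y := fun e => hN i y hy (by rw [e]; exact hy)
  have h5 : m0 x ≠ y := fun e => hij (I.disj _ _ _ hy (by rw [← e]; exact hmx))
  have h3 : m0 y ≠ x := fun e => hij (I.disj _ _ _ hx (by rw [← e]; exact hmy))
  have hzx : z ≠ x := fun e => hij (I.disj _ _ _ hx (by rw [← e]; exact hz))
  have hzy : z ≠ y := fun e => hij (I.disj _ _ _ hy (by rw [← e]; exact hz))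
  have s1 := spl_val1 hinv h1 h5
  have s2 := spl_val2 hinv hxy h3 h2
  have s3 : spl m0 x y z = m0 z := spl_val3 hinv hzx hzy hz1 hz2
  have hinv' : ∀ u, spl m0 x y (spl m0 x y u) = u := (I.spl_isMat hx hy hxy h5.symm).inv
  have hmz : m0 z ∉ U j := hN j z hz
  intro k u hu hs
  simp only [U', mem_sdiff, mem_insert, mem_singleton, not_or] at hu hs
  obtain ⟨⟨hu, g1, g2⟩, g3, g4⟩ := hu
  obtain ⟨⟨hs, -, -⟩, -, -⟩ := hs
  by_cases g5 : u = m0 y
  · have e : spl (spl m0 x y) (m0 x) z u = m0 z := by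
      have hh := spl_val1 (m0 := spl m0 x y) (x := m0 x) (y := z) hinv'
        (by rw [s1]; exact fun e => hxy (hm.inj e).symm) (by rw [s1]; exact hz2.symm)
      rw [s1, s3] at hh
      rw [g5]; exact hh
    rw [e] at hs
    rw [g5] at hu
    rw [I.disj _ _ _ hu hmy] at hs
    exact hmz hs
  by_cases g6 : u = m0 z
  · have e : spl (spl m0 x y) (m0 x) z u = m0 y := by
      have hzz : m0 z ≠ z := fun e => hmz (by rw [e]; exact hz)
      have hzz' : m0 z ≠ m0 x := fun e => hzx (hm.inj e)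
      have hh := spl_val2 (m0 := spl m0 x y) (x := m0 x) (y := z) hinv' hz1.symm
        (by rw [s3]; exact hzz') (by rw [s3]; exact hzz)
      rw [s1, s3] at hh
      rw [g6]; exact hh
    rw [e] at hs
    rw [g6] at hu
    rw [I.disj _ _ _ hs hmy] at hu
    exact hmz hu
  have e1 : spl (spl m0 x y) (m0 x) z u = spl m0 x y u :=
    spl_val3 hinv' g3 g4 (by rw [s1]; exact g5) (by rw [s3]; exact g6)
  rw [e1, spl_val3 hinv g1 g2 g3 g5] at hs
  exact hN k u hu hs

end nopure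

end Pool.Agent.MonCyc
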