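/-
MP_18d1ca_lc: the main counting induction.
-/
import Pool.Agent.MonCyc.Bound

set_option linter.all false

namespace Pool.Agent.MonCyc

open Finset

variable {α : Type*} [DecidableEq α] [Fintype α]

/-- the numerical inequality of the mixed case -/
theorem numeric {a b c yj yl zi zl : ℕ} (h : yj + zi + 1 ≤ a) (hb : yl ≤ b) (hc : zl ≤ c) :
    2 * yl * (a + b + c - 1) + 4 * yj * (zi + zl) ≤ (a + b + c) * (a + b + c - 1) ∨
    2 * zl * (a + b + c - 1) + 4 * zi * (yj + yl) ≤ (a + b + c) * (a + b + c - 1) := by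
  obtain ⟨K, hK⟩ : ∃ K, a + b + c = K + 1 := ⟨a + b + c - 1, by omega⟩
  rw [hK, Nat.add_sub_cancel]
  by_contra hcon
  push Not at hcon
  obtain ⟨h1, h2⟩ := hcon
  zify at *
  have hyj : (0 : ℤ) ≤ yj := by positivity
  have hzi : (0 : ℤ) ≤ zi := by positivity
  have hb0 : (0 : ℤ) ≤ b := by positivity
  have hc0 : (0 : ℤ) ≤ c := by positivity
  have hK0 : (0 : ℤ) ≤ K := by positivity
  have e1 : (zi : ℤ) + zl ≤ K - b - yj := by linarith
  have e2 : (yj : ℤ) + yl ≤ K - c - zi := by linarith
  have f1 : ((K : ℤ) + 1) * K < 2 * b * K + 4 * yj * (K - b - yj) := by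
    have g1 : (2 : ℤ) * yl * K ≤ 2 * b * K := by
      apply mul_le_mul_of_nonneg_right _ hK0
      linarith
    have g2 : (4 : ℤ) * yj * (zi + zl) ≤ 4 * yj * (K - b - yj) := by
      apply mul_le_mul_of_nonneg_left e1
      linarith
    linarith
  have f2 : ((K : ℤ) + 1) * K < 2 * c * K + 4 * zi * (K - c - zi) := by
    have g1 : (2 : ℤ) * zl * K ≤ 2 * c * K := by
      apply mul_le_mul_of_nonneg_right _ hK0
      linarith
    have g2 : (4 : ℤ) * zi * (yj + yl) ≤ 4 * zi * (K - c - zi) := by
      apply mul_le_mul_of_nonneg_left e2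
      linarith
    linarith
  have g1 : (2 * (yj : ℤ) - K + b) ^ 2 < b ^ 2 := by nlinarith
  have g2 : (2 * (zi : ℤ) - K + c) ^ 2 < c ^ 2 := by nlinarith
  have g3 := (abs_lt.1 (abs_lt_of_sq_lt_sq g1 hb0)).1
  have g4 := (abs_lt.1 (abs_lt_of_sq_lt_sq g2 hc0)).1
  linarith

section

variable {m0 : α → α} {U : Fin 3 → Finset α} {M : Fin 3 → Finset (α → α)}

/-- the induction hypothesis -/
def IH (α : Type*) [DecidableEq α] [Fintype α] (n : ℕ) : Prop :=
  ∀ (m0 : α → α) (U : Fin 3 → Finset α) (M : Fin 3 → Finset (α → α)), Inst m0 U M →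
    ∀ k, (al U).card = 2 * n → (mixed m0 U).card = 2 * k →
    (∀ i, (∃ x ∈ U i, m0 x ∈ U i) → (U i).card ≤ n + 2) →
    (∏ i, (M i).card) * 2 ^ k ≤ 2 * n.factorial

theorem IH.nopure {n : ℕ} (h : IH α n) (I : Inst m0 U M) (hc : (al U).card = 2 * n)
    (hN : NoPure m0 U) : (∏ i, (M i).card) * 2 ^ n ≤ 2 * n.factorial := by
  refine h m0 U M I n hc (by rw [hN.mixed, hc]) ?_
  rintro i ⟨x, hx, hmx⟩
  exact absurd hmx (hN i x hx)

theorem prod_le_one (I : Inst m0 U M) (h : ∀ j, (U j).card ≤ 2) : ∏ j, (M j).card ≤ 1 :=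
  prod_le_one' (fun j _ => I.card_le_one (h j))

theorem card_U_le (U : Fin 3 → Finset α) (j : Fin 3) : (U j).card ≤ (al U).card :=
  card_le_card (fun u hu => mem_al.2 ⟨j, hu⟩)

/-- an element of every family -/
theorem exists_fam (h : 0 < ∏ j, (M j).card) {i : Fin 3} {m : α → α} (hm : m ∈ M i) :
    ∃ f : Fin 3 → α → α, (∀ j, f j ∈ M j) ∧ f i = m := by
  have h1 : ∀ j, (M j).Nonempty := fun j => by
    rw [← card_pos]
    exact Nat.pos_of_ne_zero (fun e => by
      rw [prod_eq_zero (mem_univ j) e] at h; exact absurd h (lt_irrefl _))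
  choose g hg using h1
  refine ⟨fun j => if j = i then m else g j, fun j => ?_, by simp⟩
  by_cases hj : j = i
  · subst hj; simpa using hm
  · simpa [hj] using hg j

/-- Case P -/
theorem caseP {n : ℕ} (hIH : IH α (n + 1)) (I : Inst m0 U M) {k : ℕ}
    (hc : (al U).card = 2 * (n + 2)) (hk : (mixed m0 U).card = 2 * k)
    (hT : ∀ i, (∃ x ∈ U i, m0 x ∈ U i) → (U i).card ≤ n + 2 + 2)
    (hP : ¬ NoPure m0 U) : (∏ i, (M i).card) * 2 ^ k ≤ 2 * (n + 2).factorial := by
  rcases Nat.eq_zero_or_pos (∏ i, (M i).card) with h0 | hpos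
  · rw [h0, zero_mul]; exact Nat.zero_le _
  -- the largest part with a pure pair
  let S : Finset (Fin 3) := univ.filter (fun i => ∃ x ∈ U i, m0 x ∈ U i)
  have hS : S.Nonempty := by
    unfold NoPure at hP
    push Not at hP
    obtain ⟨i, x, hx, hmx⟩ := hP
    exact ⟨i, by simp only [S, mem_filter, mem_univ, true_and]; exact ⟨x, hx, hmx⟩⟩
  obtain ⟨i, hi, hmax⟩ := exists_max_image S (fun i => (U i).card) hS
  obtain ⟨x, hx, hmx⟩ : ∃ x ∈ U i, m0 x ∈ U i := by simpa [S] using hi
  have hm := I.mat0
  have hxa : x ∈ al U := mem_al.2 ⟨i, hx⟩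
  have hmxx : m0 x ≠ x := hm.ne hxa
  have hUi := hT i ⟨x, hx, hmx⟩
  -- properties of the partners
  have hY : ∀ y ∈ (M i).image (fun m => m x), y ∈ U i ∧ x ≠ y ∧ y ≠ m0 x := by
    intro y hy
    obtain ⟨m, hmi, rfl⟩ := mem_image.1 hy
    have hmat := I.mat i m hmi
    refine ⟨hmat.map_mem hx, (hmat.ne hx).symm, fun e => ?_⟩
    obtain ⟨f, hf, hfi⟩ := exists_fam hpos hmi
    have := I.two hf hx (by rw [hfi]; exact e)
    rw [this] at hc
    have h2 : ({x, m0 x} : Finset α).card ≤ 2 := card_le_two
    omega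
  have hcardY : ((M i).image (fun m => m x)).card ≤ n + 2 := by
    have hsub : (M i).image (fun m => m x) ⊆ U i \ {x, m0 x} := by
      intro y hy
      obtain ⟨h1, h2, h3⟩ := hY y hy
      simp only [mem_sdiff, mem_insert, mem_singleton, not_or]
      exact ⟨h1, h2.symm, h3⟩
    have h1 := card_le_card hsub
    rw [card_sdiff_of_subset (by
      intro u hu
      simp only [mem_insert, mem_singleton] at hu
      rcases hu with rfl | rfl
      · exact hx
      · exact hmx), card_pair hmxx.symm] at h1
    omega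
  have hterm : ∀ y ∈ (M i).image (fun m => m x),
      (∏ j, (M' M i x y j).card) * 2 ^ k ≤ 2 * (n + 1).factorial := by
    intro y hy
    obtain ⟨hyU, hxy, hne⟩ := hY y hy
    have I' := I.contract hx hyU hxy hne
    refine hIH _ _ _ I' k (card_al_U' hx hyU hxy hc)
      (by rw [I.card_mixed hx hmx hyU hxy hne, hk]) ?_
    rintro j ⟨u, hu, hsu⟩
    have hcj : (U' U x y j).card ≤ (U j).card := card_le_card sdiff_subset
    by_cases hj : j = i
    · subst hj
      have : (U' U x y j).card = (U j).card - 2 := by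
        rw [U', card_sdiff_of_subset (by
          intro u hu
          simp only [mem_insert, mem_singleton] at hu
          rcases hu with rfl | rfl
          · exact hx
          · exact hyU), card_pair hxy]
      omega
    · -- the pair is an old pure pair
      have hya : y ∈ al U := mem_al.2 ⟨i, hyU⟩
      have h2 : m0 y ≠ y := hm.ne hya
      have h3 : m0 y ≠ x := fun e => hne (by rw [← e, hm.inv])
      simp only [U', mem_sdiff, mem_insert, mem_singleton, not_or] at hu hsu
      obtain ⟨hu, g1, g2⟩ := hu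
      obtain ⟨hsu, -, -⟩ := hsu
      have g3 : u ≠ m0 x := fun e => hj (I.disj _ _ _ hu (by rw [e]; exact hmx))
      have g4 : u ≠ m0 y := by
        intro e
        rw [e, spl_val2 hm.inv hxy h3 h2] at hsu
        exact hj (I.disj _ _ _ hsu hmx)
      rw [spl_val3 hm.inv g1 g2 g3 g4] at hsu
      have hjS : j ∈ S := by
        simp only [S, mem_filter, mem_univ, true_and]; exact ⟨u, hu, hsu⟩
      have h5 := hmax j hjS
      have h6 : (U j).card + (U i).card ≤ (al U).card := by
        rw [I.card_al]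
        have : (U j).card + (U i).card = ∑ l ∈ ({j, i} : Finset (Fin 3)), (U l).card := by
          rw [sum_pair hj]
        rw [this]
        exact sum_le_sum_of_subset (subset_univ _)
      omega
  calc (∏ i, (M i).card) * 2 ^ k
      = ∑ y ∈ (M i).image (fun m => m x), (∏ j, (M' M i x y j).card) * 2 ^ k := by
        rw [I.expand hx, sum_mul]
    _ ≤ ∑ y ∈ (M i).image (fun m => m x), 2 * (n + 1).factorial := sum_le_sum hterm
    _ = ((M i).image (fun m => m x)).card * (2 * (n + 1).factorial) := by
        rw [sum_const, smul_eq_mul]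
    _ ≤ (n + 2) * (2 * (n + 1).factorial) := Nat.mul_le_mul_right _ hcardY
    _ = 2 * (n + 2).factorial := by rw [Nat.factorial_succ (n + 1)]; ring

/-- the option lemma of case M -/
theorem option {n : ℕ} (hIH1 : IH α (n + 2)) (hIH2 : IH α (n + 1)) (I : Inst m0 U M)
    (hc : (al U).card = 2 * (n + 3)) (hN : NoPure m0 U) {i j l : Fin 3} (hij : i ≠ j)
    (hil : i ≠ l) (hjl : j ≠ l) (hall : ∀ k, k = i ∨ k = j ∨ k = l)
    {x : α} (hx : x ∈ U i) (hmx : m0 x ∈ U j) :
    (∏ i, (M i).card) * 2 ^ (n + 3) ≤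
      2 * (((M i).image (fun m => m x)).filter (fun y => m0 y ∈ U l)).card *
        (2 * (n + 2).factorial) +
      4 * (((M i).image (fun m => m x)).filter (fun y => m0 y ∈ U j)).card *
        ((M j).image (fun m => m (m0 x))).card * (2 * (n + 1).factorial) := by
  rcases Nat.eq_zero_or_pos (∏ i, (M i).card) with h0 | hpos
  · rw [h0, zero_mul]; exact Nat.zero_le _
  have hm := I.mat0
  have hxa : x ∈ al U := mem_al.2 ⟨i, hx⟩
  have hmxx : m0 x ≠ x := hm.ne hxa
  have hY : ∀ y ∈ (M i).image (fun m => m x), y ∈ U i ∧ x ≠ y ∧ y ≠ m0 x := by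
    intro y hy
    obtain ⟨m, hmi, rfl⟩ := mem_image.1 hy
    have hmat := I.mat i m hmi
    refine ⟨hmat.map_mem hx, (hmat.ne hx).symm, fun e => ?_⟩
    exact hij (I.disj _ _ _ (hmat.map_mem hx) (by rw [e]; exact hmx))
  -- first kind
  have hA : ∀ y ∈ ((M i).image (fun m => m x)).filter (fun y => m0 y ∈ U l),
      (∏ j, (M' M i x y j).card) * 2 ^ (n + 3) ≤ 2 * (2 * (n + 2).factorial) := by
    intro y hy
    obtain ⟨hy, hmy⟩ := mem_filter.1 hy
    obtain ⟨hyU, hxy, hne⟩ := hY y hy
    have I' := I.contract hx hyU hxy hne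
    have hN' := I.nopure1 hN hx hyU hxy hjl hmx hmy
    have := hIH1.nopure I' (card_al_U' hx hyU hxy hc) hN'
    calc (∏ j, (M' M i x y j).card) * 2 ^ (n + 3)
        = 2 * ((∏ j, (M' M i x y j).card) * 2 ^ (n + 2)) := by rw [pow_succ 2 (n + 2)]; ring
      _ ≤ 2 * (2 * (n + 2).factorial) := Nat.mul_le_mul_left _ this
  -- second kind
  have hB : ∀ y ∈ ((M i).image (fun m => m x)).filter (fun y => m0 y ∈ U j),
      (∏ j, (M' M i x y j).card) * 2 ^ (n + 3) ≤
        4 * ((M j).image (fun m => m (m0 x))).card * (2 * (n + 1).factorial) := by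
    intro y hy
    obtain ⟨hy, hmy⟩ := mem_filter.1 hy
    obtain ⟨hyU, hxy, hne⟩ := hY y hy
    have I' := I.contract hx hyU hxy hne
    have hinv := hm.inv
    have h2 : m0 y ≠ y := fun e => hN i y hyU (by rw [e]; exact hyU)
    have s1 := spl_val1 hinv hmxx hne.symm
    have hmx' : m0 x ∈ U' U x y j := by
      simp only [U', mem_sdiff, mem_insert, mem_singleton, not_or]
      exact ⟨hmx, hmxx, hne.symm⟩
    have hMj : M' M i x y j = M j := I.M'_ne hx hyU hij.symm
    have hterm : ∀ z ∈ (M' M i x y j).image (fun m => m (m0 x)),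
        (∏ k, (M' (M' M i x y) j (m0 x) z k).card) * 2 ^ (n + 1) ≤ 2 * (n + 1).factorial := by
      intro z hz
      obtain ⟨m, hmj, rfl⟩ := mem_image.1 hz
      have hmat := I'.mat j m hmj
      have hzU' := hmat.map_mem hmx'
      have hzne := hmat.ne hmx'
      rw [hMj] at hmj
      have hzU : m (m0 x) ∈ U j := (I.mat j m hmj).map_mem hmx
      have hz2 : m (m0 x) ≠ m0 y := by
        intro e
        obtain ⟨mi, hmi, hmiy⟩ := mem_image.1 hy
        obtain ⟨f, hf, hfi⟩ := exists_fam hpos hmi
        have hf' : ∀ k, (fun k => if k = j then m else f k) k ∈ M k := by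
          intro k
          by_cases hk : k = j
          · subst hk; simpa using hmj
          · simpa [hk] using hf k
        have h4 := I.four (i := i) (j := j) hf' hij hx hmx (by
          simp only [if_true, if_neg hij]
          rw [hfi, hmiy]; exact e)
        have h5 := card_le_card h4
        have h6 : ({x, m0 x, (if i = j then m else f i) x, m0 ((if i = j then m else f i) x)} :
          Finset α).card ≤ 4 := card_le_four
        omega
      have hc' := card_al_U' hx hyU hxy hc
      have I'' := I'.contract hmx' hzU' hzne.symm (by rw [s1]; exact hz2)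
      have hN'' := I.nopure2 hN hx hyU hxy hmx hmy hzU hzne hz2
      exact hIH2.nopure I'' (card_al_U' hmx' hzU' hzne.symm hc') hN''
    calc (∏ j, (M' M i x y j).card) * 2 ^ (n + 3)
        = 4 * ∑ z ∈ (M' M i x y j).image (fun m => m (m0 x)),
          (∏ k, (M' (M' M i x y) j (m0 x) z k).card) * 2 ^ (n + 1) := by
          rw [I'.expand hmx', sum_mul, mul_sum]
          apply sum_congr rfl
          intro z _
          rw [pow_succ 2 (n + 2), pow_succ 2 (n + 1)]
          ring
      _ ≤ 4 * ∑ z ∈ (M' M i x y j).image (fun m => m (m0 x)), 2 * (n + 1).factorial :=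
          Nat.mul_le_mul_left _ (sum_le_sum hterm)
      _ = 4 * ((M j).image (fun m => m (m0 x))).card * (2 * (n + 1).factorial) := by
          rw [sum_const, smul_eq_mul, hMj]; ring
  have hsplit : (M i).image (fun m => m x) =
      ((M i).image (fun m => m x)).filter (fun y => m0 y ∈ U l) ∪
      ((M i).image (fun m => m x)).filter (fun y => m0 y ∈ U j) := by
    ext y
    rw [mem_union, mem_filter, mem_filter]
    constructor
    · intro hy
      obtain ⟨hyU, hxy, hne⟩ := hY y hy
      obtain ⟨k, hk⟩ := mem_al.1 (hm.map_mem (mem_al.2 ⟨i, hyU⟩))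
      rcases hall k with rfl | rfl | rfl
      · exact absurd hk (hN _ _ hyU)
      · exact Or.inr ⟨hy, hk⟩
      · exact Or.inl ⟨hy, hk⟩
    · rintro (h | h)
      · exact h.1
      · exact h.1
  have hdis : Disjoint (((M i).image (fun m => m x)).filter (fun y => m0 y ∈ U l))
      (((M i).image (fun m => m x)).filter (fun y => m0 y ∈ U j)) := by
    rw [disjoint_left]
    intro y h1 h2
    exact hjl (I.disj _ _ _ (mem_filter.1 h2).2 (mem_filter.1 h1).2)
  calc (∏ i, (M i).card) * 2 ^ (n + 3)
      = ∑ y ∈ (M i).image (fun m => m x), (∏ j, (M' M i x y j).card) * 2 ^ (n + 3) := by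
        rw [I.expand hx, sum_mul]
    _ = ∑ y ∈ ((M i).image (fun m => m x)).filter (fun y => m0 y ∈ U l),
          (∏ j, (M' M i x y j).card) * 2 ^ (n + 3) +
        ∑ y ∈ ((M i).image (fun m => m x)).filter (fun y => m0 y ∈ U j),
          (∏ j, (M' M i x y j).card) * 2 ^ (n + 3) := by
        rw [← sum_union hdis, ← hsplit]
    _ ≤ ∑ y ∈ ((M i).image (fun m => m x)).filter (fun y => m0 y ∈ U l),
          2 * (2 * (n + 2).factorial) +
        ∑ y ∈ ((M i).image (fun m => m x)).filter (fun y => m0 y ∈ U j),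
          4 * ((M j).image (fun m => m (m0 x))).card * (2 * (n + 1).factorial) :=
        Nat.add_le_add (sum_le_sum hA) (sum_le_sum hB)
    _ = _ := by
        rw [sum_const, sum_const, smul_eq_mul, smul_eq_mul]; ring

/-- number of points of `U i` whose partner is in `U j` -/
def cc (m0 : α → α) (U : Fin 3 → Finset α) (i j : Fin 3) : ℕ :=
  ((U i).filter (fun u => m0 u ∈ U j)).card

theorem cc_comm (I : Inst m0 U M) (i j : Fin 3) : cc m0 U i j = cc m0 U j i := by
  have hm := I.mat0
  have key : ∀ i j, cc m0 U i j ≤ cc m0 U j i := by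
    intro i j
    apply card_le_card_of_injOn m0
    · intro u hu
      simp only [coe_filter, Set.mem_setOf_eq] at hu ⊢
      exact ⟨hu.2, by rw [hm.inv]; exact hu.1⟩
    · intro u _ v _ e
      exact hm.inj e
  exact le_antisymm (key i j) (key j i)

theorem cc_split (I : Inst m0 U M) (hN : NoPure m0 U) {i j l : Fin 3} (hjl : j ≠ l)
    (hall : ∀ k, k = i ∨ k = j ∨ k = l) (S : Finset α) (hS : S ⊆ U i) :
    S.card = (S.filter (fun u => m0 u ∈ U j)).card + (S.filter (fun u => m0 u ∈ U l)).card := by
  rw [← card_union_of_disjoint]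
  · congr 1
    ext u
    rw [mem_union, mem_filter, mem_filter]
    constructor
    · intro hu
      obtain ⟨k, hk⟩ := mem_al.1 (I.mat0.map_mem (mem_al.2 ⟨i, hS hu⟩))
      rcases hall k with rfl | rfl | rfl
      · exact absurd hk (hN _ _ (hS hu))
      · exact Or.inl ⟨hu, hk⟩
      · exact Or.inr ⟨hu, hk⟩
    · rintro (h | h)
      · exact h.1
      · exact h.1
  · rw [disjoint_left]
    intro y h1 h2
    exact hjl (I.disj _ _ _ (mem_filter.1 h1).2 (mem_filter.1 h2).2)

/-- Case M -/
theorem caseM {n : ℕ} (hIH1 : IH α (n + 2)) (hIH2 : IH α (n + 1)) (I : Inst m0 U M)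
    (hc : (al U).card = 2 * (n + 3)) (hN : NoPure m0 U) :
    (∏ i, (M i).card) * 2 ^ (n + 3) ≤ 2 * (n + 3).factorial := by
  rcases Nat.eq_zero_or_pos (∏ i, (M i).card) with h0 | hpos
  · rw [h0, zero_mul]; exact Nat.zero_le _
  have hm := I.mat0
  obtain ⟨x, hxa⟩ : (al U).Nonempty := by rw [← card_pos, hc]; omega
  obtain ⟨i, hx⟩ := mem_al.1 hxa
  obtain ⟨j, hmx⟩ := mem_al.1 (hm.map_mem hxa)
  have hij : i ≠ j := fun e => hN i x hx (by rw [e]; exact hmx)
  obtain ⟨l, hil, hjl, hall⟩ : ∃ l : Fin 3, i ≠ l ∧ j ≠ l ∧ ∀ k, k = i ∨ k = j ∨ k = l := by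
    have key : ∀ i j : Fin 3, i ≠ j → ∃ l : Fin 3, i ≠ l ∧ j ≠ l ∧ ∀ k, k = i ∨ k = j ∨ k = l := by
      decide
    exact key i j hij
  have hmxx : m0 x ≠ x := hm.ne hxa
  -- the two options
  have hA := option hIH1 hIH2 I hc hN hij hil hjl hall hx hmx
  have hB := option hIH1 hIH2 I hc hN hij.symm hjl hil
    (fun k => by rcases hall k with h | h | h <;> tauto) hmx (by rw [hm.inv]; exact hx)
  rw [hm.inv] at hB
  -- sets
  set Y := (M i).image (fun m => m x) with hYdef
  set Z := (M j).image (fun m => m (m0 x)) with hZdef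
  have hY : Y ⊆ U i := by
    intro y hy
    obtain ⟨m, hmi, rfl⟩ := mem_image.1 hy
    exact (I.mat i m hmi).map_mem hx
  have hZ : Z ⊆ U j := by
    intro y hy
    obtain ⟨m, hmi, rfl⟩ := mem_image.1 hy
    exact (I.mat j m hmi).map_mem hmx
  have hYs := cc_split I hN hjl hall Y hY
  have hZs := cc_split I hN hil (fun k => by rcases hall k with h | h | h <;> tauto) Z hZ
  -- the numbers
  have hUi := cc_split I hN hjl hall (U i) (Subset.refl _)
  have hUj := cc_split I hN hil (i := j) (fun k => by rcases hall k with h | h | h <;> tauto)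
    (U j) (Subset.refl _)
  have hUl := cc_split I hN hij (i := l) (fun k => by rcases hall k with h | h | h <;> tauto)
    (U l) (Subset.refl _)
  have hsum : (U i).card + (U j).card + (U l).card = 2 * (n + 3) := by
    rw [← hc, I.card_al]
    have : (univ : Finset (Fin 3)) = {i, j, l} := by
      ext k; simpa using hall k
    rw [this, sum_insert (by simp [hij, hil]), sum_insert (by simp [hjl]), sum_singleton]
    ring
  have c1 := cc_comm I i j
  have c2 := cc_comm I i l
  have c3 := cc_comm I j l
  unfold cc at c1 c2 c3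
  set a := ((U i).filter (fun u => m0 u ∈ U j)).card with ha
  set b := ((U i).filter (fun u => m0 u ∈ U l)).card with hb
  set c := ((U j).filter (fun u => m0 u ∈ U l)).card with hcc
  have habc : a + b + c = n + 3 := by omega
  have hyl : (Y.filter (fun u => m0 u ∈ U l)).card ≤ b := card_le_card (filter_subset_filter _ hY)
  have hzl : (Z.filter (fun u => m0 u ∈ U l)).card ≤ c := card_le_card (filter_subset_filter _ hZ)
  have hyz : (Y.filter (fun u => m0 u ∈ U j)).card + (Z.filter (fun u => m0 u ∈ U i)).card + 1 ≤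
      a := by
    have e1 : ((Z.filter (fun u => m0 u ∈ U i)).image m0).card =
        (Z.filter (fun u => m0 u ∈ U i)).card := card_image_of_injective _ (fun u v e => hm.inj e)
    have d1 : Disjoint (Y.filter (fun u => m0 u ∈ U j))
        ((Z.filter (fun u => m0 u ∈ U i)).image m0) := by
      rw [disjoint_left]
      intro u h1 h2
      obtain ⟨z, hz, rfl⟩ := mem_image.1 h2
      obtain ⟨hy, hmy⟩ := mem_filter.1 h1
      obtain ⟨hz, hmz⟩ := mem_filter.1 hz
      obtain ⟨mi, hmi, hmiy⟩ := mem_image.1 hy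
      obtain ⟨mj, hmj, hmjz⟩ := mem_image.1 hz
      obtain ⟨f, hf, hfi⟩ := exists_fam hpos hmi
      have hf' : ∀ k, (fun k => if k = j then mj else f k) k ∈ M k := by
        intro k
        by_cases hk : k = j
        · subst hk; simpa using hmj
        · simpa [hk] using hf k
      have h4 := I.four (i := i) (j := j) hf' hij hx hmx (by
        simp only [if_true, if_neg hij]
        rw [hfi, hmiy, hm.inv]; exact hmjz)
      have h5 := card_le_card h4
      have h6 : ({x, m0 x, (if i = j then mj else f i) x, m0 ((if i = j then mj else f i) x)} :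
        Finset α).card ≤ 4 := card_le_four
      omega
    have d2 : x ∉ Y.filter (fun u => m0 u ∈ U j) ∪ (Z.filter (fun u => m0 u ∈ U i)).image m0 := by
      rw [mem_union]
      rintro (h | h)
      · obtain ⟨hy, -⟩ := mem_filter.1 h
        obtain ⟨mi, hmi, hmiy⟩ := mem_image.1 hy
        exact (I.mat i mi hmi).ne hx hmiy
      · obtain ⟨z, hz, hzx⟩ := mem_image.1 h
        obtain ⟨hz, -⟩ := mem_filter.1 hz
        obtain ⟨mj, hmj, hmjz⟩ := mem_image.1 hz
        have : z = m0 x := by rw [← hzx, hm.inv]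
        rw [this] at hmjz
        exact (I.mat j mj hmj).ne hmx hmjz
    rw [← e1, ← card_union_of_disjoint d1, ← card_insert_of_notMem d2]
    apply card_le_card
    intro u hu
    rw [mem_insert, mem_union] at hu
    rw [mem_filter]
    rcases hu with rfl | hu | hu
    · exact ⟨hx, hmx⟩
    · obtain ⟨h1, h2⟩ := mem_filter.1 hu
      exact ⟨hY h1, h2⟩
    · obtain ⟨z, hz, rfl⟩ := mem_image.1 hu
      obtain ⟨h1, h2⟩ := mem_filter.1 hz
      exact ⟨h2, by rw [hm.inv]; exact hZ h1⟩
  have hnum := numeric hyz hyl hzl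
  rw [habc, show n + 3 - 1 = n + 2 by omega] at hnum
  rw [hZs] at hA
  rw [hYs] at hB
  have hf2 : (n + 2).factorial = (n + 2) * (n + 1).factorial := Nat.factorial_succ _
  have hf3 : (n + 3).factorial = (n + 3) * ((n + 2) * (n + 1).factorial) := by
    rw [Nat.factorial_succ, hf2]
  set F := (n + 1).factorial
  rw [hf2] at hA hB
  rw [hf3]
  rcases hnum with h | h
  · refine hA.trans ?_
    have := Nat.mul_le_mul_right (2 * F) h
    linarith
  · refine hB.trans ?_
    have := Nat.mul_le_mul_right (2 * F) h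
    linarith

theorem bound (n : ℕ) : IH α n := by
  induction n using Nat.strong_induction_on with
  | _ n ih =>
    intro m0 U M I k hc hk hT
    have hk2 : 2 * k ≤ 2 * n := by
      rw [← hk, ← hc]
      exact card_le_card (filter_subset _ _)
    match n, ih, hc, hT, hk2 with
    | 0, _, hc, _, hk2 =>
      have h1 := prod_le_one I (fun j => (card_U_le U j).trans (by omega))
      have : k = 0 := by omega
      subst this
      simpa using h1.trans (by norm_num)
    | 1, _, hc, _, hk2 =>
      have h1 := prod_le_one I (fun j => (card_U_le U j).trans (by omega))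
      have h2 : 2 ^ k ≤ 2 ^ 1 := Nat.pow_le_pow_right (by norm_num) (by omega)
      calc _ ≤ 1 * 2 ^ 1 := Nat.mul_le_mul h1 h2
        _ = _ := by norm_num
    | 2, ih, hc, hT, hk2 =>
      by_cases hN : NoPure m0 U
      · have hU : ∀ j, (U j).card ≤ 2 := by
          intro j
          have h1 : ((U j).image m0).card = (U j).card :=
            card_image_of_injective _ (fun u v e => I.mat0.inj e)
          have h2 : Disjoint (U j) ((U j).image m0) := by
            rw [disjoint_left]
            intro u h1 h2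
            obtain ⟨v, hv, rfl⟩ := mem_image.1 h2
            exact hN j v hv h1
          have h3 : (U j ∪ (U j).image m0).card ≤ (al U).card := by
            apply card_le_card
            intro u hu
            rcases mem_union.1 hu with hu | hu
            · exact mem_al.2 ⟨j, hu⟩
            · obtain ⟨v, hv, rfl⟩ := mem_image.1 hu
              exact I.mat0.map_mem (mem_al.2 ⟨j, hv⟩)
          rw [card_union_of_disjoint h2, h1] at h3
          omega
        have h1 := prod_le_one I hU
        have h2 : 2 ^ k ≤ 2 ^ 2 := Nat.pow_le_pow_right (by norm_num) (by omega)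
        calc _ ≤ 1 * 2 ^ 2 := Nat.mul_le_mul h1 h2
          _ = _ := by norm_num [Nat.factorial]
      · exact caseP (ih 1 (by norm_num)) I hc hk hT hN
    | n + 3, ih, hc, hT, hk2 =>
      by_cases hN : NoPure m0 U
      · have : k = n + 3 := by
          rw [hN.mixed, hc] at hk
          omega
        subst this
        exact caseM (ih (n + 2) (by omega)) (ih (n + 1) (by omega)) I hc hN
      · exact caseP (ih (n + 2) (by omega)) I hc hk hT hN

end

end Pool.Agent.MonCyc
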