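/-
MP_18d1ca_lc: boxes of Hamiltonian cycles.
-/
import Pool.Agent.MonCyc.Main

set_option linter.all false

namespace Pool.Agent.MonCyc

open Finset Equiv

variable {V : Type*} [DecidableEq V] [Fintype V]

/-- a permutation with a single cycle -/
def Full (σ : Perm V) : Prop := ∀ u v, ∃ k : ℕ, (σ ^ k) u = v

/-- the edges of the Hamiltonian cycle of `σ` -/
def ham (σ : Perm V) (e : Sym2 V) : ℕ := (univ.filter (fun u => s(u, σ u) = e)).card

theorem Full.ne {σ : Perm V} (h : Full σ) (hV : 3 ≤ Fintype.card V) (u : V) : σ u ≠ u := by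
  intro e
  have h1 : ∀ k : ℕ, (σ ^ k) u = u := by
    intro k
    induction k with
    | zero => rfl
    | succ k ih => rw [pow_succ, Perm.mul_apply, e, ih]
  have h2 : (univ : Finset V) ⊆ {u} := by
    intro v _
    obtain ⟨k, hk⟩ := h u v
    rw [mem_singleton, ← hk, h1]
  have := card_le_card h2
  rw [card_univ, card_singleton] at this
  omega

theorem Full.ne2 {σ : Perm V} (h : Full σ) (hV : 3 ≤ Fintype.card V) (u : V) : σ (σ u) ≠ u := by
  intro e
  have h1 : ∀ k : ℕ, (σ ^ k) u = u ∨ (σ ^ k) u = σ u := by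
    intro k
    induction k with
    | zero => left; rfl
    | succ k ih =>
      rw [pow_succ', Perm.mul_apply]
      rcases ih with ih | ih
      · rw [ih]; right; rfl
      · rw [ih, e]; left; rfl
  have h2 : (univ : Finset V) ⊆ {u, σ u} := by
    intro v _
    obtain ⟨k, hk⟩ := h u v
    rw [mem_insert, mem_singleton, ← hk]
    exact h1 k
  have := card_le_card h2
  rw [card_univ] at this
  have h3 : ({u, σ u} : Finset V).card ≤ 2 := card_le_two
  omega

theorem Full.edge_inj {σ : Perm V} (h : Full σ) (hV : 3 ≤ Fintype.card V) {u w : V}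
    (e : s(u, σ u) = s(w, σ w)) : u = w := by
  rw [Sym2.eq_iff] at e
  rcases e with ⟨h1, _⟩ | ⟨h1, h2⟩
  · exact h1
  · exfalso
    apply h.ne2 hV w
    rw [← h1, h2]

theorem ham_edge {σ : Perm V} (h : Full σ) (hV : 3 ≤ Fintype.card V) (u : V) :
    ham σ s(u, σ u) = 1 := by
  rw [ham, card_eq_one]
  refine ⟨u, ?_⟩
  ext w
  simp only [mem_filter, mem_univ, true_and, mem_singleton]
  exact ⟨fun e => h.edge_inj hV e, fun e => by rw [e]⟩

/-- decomposition of a Hamiltonian cycle -/
structure Dec (P : Fin 3 → Set (Sym2 V → ℕ)) (σ : Perm V) (p : Fin 3 → Sym2 V → ℕ) : Prop where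
  mem : ∀ i, p i ∈ P i
  sum : ∀ e, ∑ i, p i e = ham σ e
  full : Full σ

open Classical in
/-- the class of the edge leaving `u` -/
noncomputable def ecl (p : Fin 3 → Sym2 V → ℕ) (σ : Perm V) (u : V) : Fin 3 :=
  if h : ∃ i, p i s(u, σ u) ≠ 0 then h.choose else 0

section dec

variable {P : Fin 3 → Set (Sym2 V → ℕ)} {σ : Perm V} {p : Fin 3 → Sym2 V → ℕ}

theorem Dec.val (D : Dec P σ p) (hV : 3 ≤ Fintype.card V) (u : V) (i : Fin 3) :
    p i s(u, σ u) = if ecl p σ u = i then 1 else 0 := by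
  have hs := D.sum s(u, σ u)
  rw [ham_edge D.full hV] at hs
  have hex : ∃ i, p i s(u, σ u) ≠ 0 := by
    by_contra hcon
    push Not at hcon
    rw [sum_eq_zero (fun i _ => hcon i)] at hs
    exact absurd hs (by norm_num)
  have he : p (ecl p σ u) s(u, σ u) ≠ 0 := by
    rw [ecl, dif_pos hex]
    exact hex.choose_spec
  set j := ecl p σ u
  have h1 : p j s(u, σ u) + ∑ k ∈ univ.erase j, p k s(u, σ u) = 1 := by
    rw [add_sum_erase univ (fun k => p k s(u, σ u)) (mem_univ j)]; exact hs
  by_cases hij : j = i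
  · rw [if_pos hij, ← hij]; omega
  · rw [if_neg hij]
    have h2 : ∑ k ∈ univ.erase j, p k s(u, σ u) = 0 := by omega
    exact (sum_eq_zero_iff.1 h2) i (mem_erase.2 ⟨fun e => hij e.symm, mem_univ _⟩)

theorem Dec.eq_card (D : Dec P σ p) (hV : 3 ≤ Fintype.card V) (i : Fin 3) (e : Sym2 V) :
    p i e = (univ.filter (fun u => s(u, σ u) = e ∧ ecl p σ u = i)).card := by
  by_cases h : ∃ u, s(u, σ u) = e
  · obtain ⟨u, rfl⟩ := h
    rw [D.val hV]
    by_cases hi : ecl p σ u = i
    · rw [if_pos hi, eq_comm, card_eq_one]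
      refine ⟨u, ?_⟩
      ext w
      simp only [mem_filter, mem_univ, true_and, mem_singleton]
      exact ⟨fun e => D.full.edge_inj hV e.1, fun e => by rw [e]; exact ⟨rfl, hi⟩⟩
    · rw [if_neg hi, eq_comm, card_eq_zero, filter_eq_empty_iff]
      rintro w - ⟨h1, h2⟩
      rw [D.full.edge_inj hV h1] at h2
      exact hi h2
  · have h0 : ham σ e = 0 := by
      rw [ham, card_eq_zero, filter_eq_empty_iff]
      intro w _ hw
      exact h ⟨w, hw⟩
    have h1 := D.sum e
    rw [h0] at h1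
    rw [(sum_eq_zero_iff.1 h1) i (mem_univ i), eq_comm, card_eq_zero, filter_eq_empty_iff]
    rintro w - ⟨h2, -⟩
    exact h ⟨w, h2⟩

/-- degrees -/
def dg (p : Sym2 V → ℕ) (u : V) : ℕ := ∑ e, if u ∈ e then p e else 0

theorem Dec.dg_eq (D : Dec P σ p) (hV : 3 ≤ Fintype.card V) (i : Fin 3) (u : V) :
    dg (p i) u = (if ecl p σ u = i then 1 else 0) + (if ecl p σ (σ⁻¹ u) = i then 1 else 0) := by
  have h1 : dg (p i) u =
      (univ.filter (fun w => (w = u ∨ w = σ⁻¹ u) ∧ ecl p σ w = i)).card := by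
    have h2 : ∀ e, (if u ∈ e then p i e else 0) =
        ∑ w, if (u ∈ s(w, σ w) ∧ ecl p σ w = i) ∧ s(w, σ w) = e then 1 else 0 := by
      intro e
      rw [← card_filter]
      by_cases hu : u ∈ e
      · rw [if_pos hu, D.eq_card hV]
        congr 1
        ext w
        simp only [mem_filter, mem_univ, true_and]
        constructor
        · rintro ⟨rfl, h⟩; exact ⟨⟨hu, h⟩, rfl⟩
        · rintro ⟨⟨_, h⟩, h'⟩; exact ⟨h', h⟩
      · rw [if_neg hu, eq_comm, card_eq_zero, filter_eq_empty_iff]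
        rintro w - ⟨⟨h, _⟩, rfl⟩
        exact hu h
    rw [dg, sum_congr rfl (fun e _ => h2 e), sum_comm, card_filter]
    apply sum_congr rfl
    intro w _
    have h3 : (u ∈ s(w, σ w)) ↔ (w = u ∨ w = σ⁻¹ u) := by
      rw [Sym2.mem_iff, eq_comm, Perm.eq_inv_iff_eq, eq_comm (a := u)]
    by_cases hw : (w = u ∨ w = σ⁻¹ u) ∧ ecl p σ w = i
    · rw [if_pos hw, sum_eq_single s(w, σ w)]
      · rw [if_pos]
        exact ⟨⟨h3.2 hw.1, hw.2⟩, rfl⟩
      · intro e _ he
        rw [if_neg]
        rintro ⟨_, h⟩; exact he h.symm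
      · intro h; exact absurd (mem_univ _) h
    · rw [if_neg hw]
      apply sum_eq_zero
      intro e _
      rw [if_neg]
      rintro ⟨⟨h4, h5⟩, _⟩
      exact hw ⟨h3.1 h4, h5⟩
  have hne : u ≠ σ⁻¹ u := fun e => D.full.ne hV u (Perm.eq_inv_iff_eq.1 e)
  have h4 : univ.filter (fun w => (w = u ∨ w = σ⁻¹ u) ∧ ecl p σ w = i) =
      ({u, σ⁻¹ u} : Finset V).filter (fun w => ecl p σ w = i) := by
    ext w
    simp only [mem_filter, mem_univ, true_and, mem_insert, mem_singleton]
  rw [h1, h4, filter_insert, filter_singleton]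
  split_ifs <;> first | exact card_pair hne | simp

theorem Dec.dg_sum (D : Dec P σ p) (hV : 3 ≤ Fintype.card V) (u : V) : ∑ i, dg (p i) u = 2 := by
  rw [sum_congr rfl (fun i _ => D.dg_eq hV i u), sum_add_distrib, sum_ite_eq, sum_ite_eq]
  simp

end dec

/-- a box of Hamiltonian cycles -/
structure BoxH (P : Fin 3 → Set (Sym2 V → ℕ)) : Prop where
  all : ∀ q : Fin 3 → Sym2 V → ℕ, (∀ i, q i ∈ P i) → ∃ σ, Dec P σ q
  deg : ∀ i, ∀ p ∈ P i, 2 * ∑ e, p e ≤ Fintype.card V

section inst

variable {P : Fin 3 → Set (Sym2 V → ℕ)} (B : BoxH P) {σ0 : Perm V} {p0 : Fin 3 → Sym2 V → ℕ}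
  (D0 : Dec P σ0 p0) (hV : 3 ≤ Fintype.card V)

include B D0 hV in
theorem dg_const {i : Fin 3} {q : Sym2 V → ℕ} (hq : q ∈ P i) (u : V) : dg q u = dg (p0 i) u := by
  obtain ⟨σ', D'⟩ := B.all (Function.update p0 i q) (by
    intro j
    by_cases hj : j = i
    · subst hj; simpa using hq
    · simpa [hj] using D0.mem j)
  have h1 := D'.dg_sum hV u
  have h2 := D0.dg_sum hV u
  rw [← add_sum_erase univ _ (mem_univ i)] at h1 h2
  have h3 : ∑ j ∈ univ.erase i, dg (Function.update p0 i q j) u =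
      ∑ j ∈ univ.erase i, dg (p0 j) u := by
    apply sum_congr rfl
    intro j hj
    rw [Function.update_of_ne (mem_erase.1 hj).1]
  rw [h3, Function.update_self] at h1
  omega

/-- class of a port -/
noncomputable def cl (p0 : Fin 3 → Sym2 V → ℕ) (σ0 : Perm V) (w : V × Bool) : Fin 3 :=
  if w.2 then ecl p0 σ0 w.1 else ecl p0 σ0 (σ0⁻¹ w.1)

/-- the flip of ports -/
def fl (w : V × Bool) : V × Bool := (w.1, !w.2)

theorem pairs_eq {a b c d : Fin 3} (h : ∀ i : Fin 3, (if a = i then 1 else 0) +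
    (if b = i then 1 else 0) = (if c = i then 1 else 0) + (if d = i then 1 else 0)) :
    (a = c ∧ b = d) ∨ (a = d ∧ b = c) := by
  revert a b c d
  decide

include B D0 hV in
theorem cl_cases {σ : Perm V} {p : Fin 3 → Sym2 V → ℕ} (D : Dec P σ p) (u : V) :
    (ecl p σ u = cl p0 σ0 (u, true) ∧ ecl p σ (σ⁻¹ u) = cl p0 σ0 (u, false)) ∨
    (ecl p σ u = cl p0 σ0 (u, false) ∧ ecl p σ (σ⁻¹ u) = cl p0 σ0 (u, true)) := by
  apply pairs_eq
  intro i
  rw [← D.dg_eq hV, dg_const B D0 hV (D.mem i), D0.dg_eq hV]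
  simp [cl]

/-- the parts of the ports -/
noncomputable def Us (p0 : Fin 3 → Sym2 V → ℕ) (σ0 : Perm V) (i : Fin 3) : Finset (V × Bool) :=
  univ.filter (fun w => cl p0 σ0 w = i)

open Classical in
/-- the families of matchings of ports -/
noncomputable def Ms (P : Fin 3 → Set (Sym2 V → ℕ)) (p0 : Fin 3 → Sym2 V → ℕ) (σ0 : Perm V)
    (i : Fin 3) : Finset (V × Bool → V × Bool) :=
  univ.filter (fun m => IsMat (Us p0 σ0 i) m ∧ ∃ q ∈ P i, ∀ e,
    ((Us p0 σ0 i).filter (fun w => s(w.1, (m w).1) = e)).card = 2 * q e)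

theorem mem_Us {i : Fin 3} {w : V × Bool} : w ∈ Us p0 σ0 i ↔ cl p0 σ0 w = i := by simp [Us]

theorem al_Us : al (Us p0 σ0) = univ := by
  ext w
  simp [mem_al, mem_Us]

theorem mem_Ms {i : Fin 3} {m : V × Bool → V × Bool} : m ∈ Ms P p0 σ0 i ↔
    IsMat (Us p0 σ0 i) m ∧ ∃ q ∈ P i, ∀ e,
    ((Us p0 σ0 i).filter (fun w => s(w.1, (m w).1) = e)).card = 2 * q e := by simp [Ms]

theorem reach_fl {f : Fin 3 → V × Bool → V × Bool} (u : V) (b b' : Bool) :
    Reach fl f (u, b) (u, b') := by
  by_cases h : b' = b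
  · subst h; exact Relation.ReflTransGen.refl
  · apply Relation.ReflTransGen.single
    left
    simp only [fl, Prod.mk.injEq, true_and]
    cases b <;> cases b' <;> simp_all

include B D0 hV in
theorem inst : Inst fl (Us p0 σ0) (Ms P p0 σ0) where
  disj := by
    intro i j w hi hj
    rw [mem_Us] at hi hj
    rw [← hi, ← hj]
  mat0 := by
    constructor
    · rintro ⟨u, b⟩; simp [fl]
    · rintro ⟨u, b⟩
      rw [al_Us]
      simp [fl]
  mat := fun i m hm => (mem_Ms.1 hm).1
  conn := by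
    intro f hf
    choose hmat q hq hcard using fun i => mem_Ms.1 (hf i)
    obtain ⟨σ', D'⟩ := B.all q hq
    have hstep : ∀ u b b', Reach fl f (u, b) (σ' u, b') := by
      intro u b b'
      have h1 := D'.sum s(u, σ' u)
      rw [ham_edge D'.full hV] at h1
      obtain ⟨i, hi⟩ : ∃ i, q i s(u, σ' u) ≠ 0 := by
        by_contra hcon
        push Not at hcon
        rw [sum_eq_zero (fun i _ => hcon i)] at h1
        exact absurd h1 (by norm_num)
      have h2 : 0 < ((Us p0 σ0 i).filter (fun w => s(w.1, (f i w).1) = s(u, σ' u))).card := by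
        rw [hcard]; omega
      obtain ⟨w, hw⟩ := card_pos.1 h2
      obtain ⟨hw, he⟩ := mem_filter.1 hw
      rw [Sym2.eq_iff] at he
      rcases he with ⟨h3, h4⟩ | ⟨h3, h4⟩
      · have e1 : w = (u, w.2) := Prod.ext h3 rfl
        have e2 : f i w = (σ' u, (f i w).2) := Prod.ext h4 rfl
        refine (reach_fl u b w.2).trans ?_
        rw [← e1]
        refine Relation.ReflTransGen.head (Or.inr ⟨i, rfl⟩) ?_
        rw [e2]
        exact reach_fl _ _ _
      · have e1 : w = (σ' u, w.2) := Prod.ext h3 rfl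
        have e2 : f i w = (u, (f i w).2) := Prod.ext h4 rfl
        refine (reach_fl u b (f i w).2).trans ?_
        rw [← e2]
        refine Relation.ReflTransGen.head (Or.inr ⟨i, rfl⟩) ?_
        rw [(hmat i).inv, e1]
        exact reach_fl _ _ _
    have hk : ∀ (k : ℕ) u b b', Reach fl f (u, b) ((σ' ^ k) u, b') := by
      intro k
      induction k with
      | zero => intro u b b'; exact reach_fl u b b'
      | succ k ih =>
        intro u b b'
        rw [pow_succ', Perm.mul_apply]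
        exact (ih u b true).trans (hstep _ _ _)
    rintro ⟨u, b⟩ _ ⟨v, b'⟩ _
    obtain ⟨k, rfl⟩ := D'.full u v
    exact hk k u b b'

theorem card_filter_ports (c : V × Bool → Prop) [DecidablePred c] :
    (univ.filter c).card = (univ.filter (fun u => c (u, true))).card +
      (univ.filter (fun u => c (u, false))).card := by
  rw [card_filter, card_filter, card_filter, Fintype.sum_prod_type, ← sum_add_distrib]
  apply sum_congr rfl
  intro u _
  rw [Fintype.sum_bool]

include D0 hV in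
theorem card_Us (i : Fin 3) : (Us p0 σ0 i).card = 2 * ∑ e, p0 i e := by
  have h1 : ∑ e, p0 i e = (univ.filter (fun u => ecl p0 σ0 u = i)).card := by
    rw [sum_congr rfl (fun e _ => D0.eq_card hV i e)]
    rw [card_eq_sum_card_fiberwise (f := fun u => s(u, σ0 u)) (t := univ)
      (fun _ _ => mem_coe.2 (mem_univ _))]
    apply sum_congr rfl
    intro e _
    congr 1
    ext w
    simp only [mem_filter, mem_univ, true_and]
    tauto
  have h2 : (univ.filter (fun u => ecl p0 σ0 (σ0⁻¹ u) = i)).card =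
      (univ.filter (fun u => ecl p0 σ0 u = i)).card := by
    apply card_bij (fun u _ => σ0⁻¹ u)
    · intro u hu
      simpa using hu
    · intro u _ v _ e
      exact σ0⁻¹.injective e
    · intro u hu
      refine ⟨σ0 u, ?_, by simp⟩
      simpa using hu
  rw [Us, card_filter_ports, h1]
  simp only [cl, if_true, Bool.false_eq_true, if_false]
  rw [h2]; ring

/-- the number of mixed vertices -/
noncomputable def km (p0 : Fin 3 → Sym2 V → ℕ) (σ0 : Perm V) : ℕ :=
  (univ.filter (fun u => cl p0 σ0 (u, true) ≠ cl p0 σ0 (u, false))).card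

theorem card_mixed : (mixed fl (Us p0 σ0)).card = 2 * km p0 σ0 := by
  have : mixed fl (Us p0 σ0) = univ.filter (fun w => cl p0 σ0 w ≠ cl p0 σ0 (fl w)) := by
    ext w
    rw [mixed, mem_filter, mem_filter, al_Us]
    simp only [mem_univ, true_and, mem_Us]
    constructor
    · intro h e; exact h _ rfl e.symm
    · intro h i hi e; exact h (hi.trans e.symm)
  rw [this, card_filter_ports]
  have h2 : (univ.filter (fun u => cl p0 σ0 (u, false) ≠ cl p0 σ0 (fl (u, false)))).card =
      km p0 σ0 := by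
    rw [km]; congr 1; ext u
    simp only [mem_filter, mem_univ, true_and, fl, Bool.not_false]
    exact ne_comm
  rw [h2, km]
  simp only [fl, Bool.not_true]
  ring

include B D0 hV in
/-- the bound for the port instance -/
theorem bound_ports : (∏ i, (Ms P p0 σ0 i).card) * 2 ^ km p0 σ0 ≤
    2 * (Fintype.card V).factorial := by
  classical
  refine bound (Fintype.card V) fl (Us p0 σ0) (Ms P p0 σ0) (inst B D0 hV) (km p0 σ0) ?_
    card_mixed ?_
  · rw [al_Us, card_univ, Fintype.card_prod, Fintype.card_bool, mul_comm]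
  · intro i _
    rw [card_Us D0 hV]
    have := B.deg i _ (D0.mem i)
    omega

end inst

end Pool.Agent.MonCyc
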