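/-
MP_18d1ca_lc: the number of Hamiltonian cycles in a box.
-/
import Pool.Agent.MonCyc.Box

set_option linter.all false

namespace Pool.Agent.MonCyc

open Finset Equiv

variable {V : Type*} [DecidableEq V] [Fintype V]

theorem inv_ap (σ : Perm V) (u : V) : σ⁻¹ (σ u) = u := σ.symm_apply_apply u

theorem ap_inv (σ : Perm V) (u : V) : σ (σ⁻¹ u) = u := σ.apply_symm_apply u

/-- the twist at a vertex -/
noncomputable def tw (p0 : Fin 3 → Sym2 V → ℕ) (σ0 : Perm V) (p : Fin 3 → Sym2 V → ℕ) (σ : Perm V)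
    (T : Finset V) (u : V) : Bool :=
  if cl p0 σ0 (u, true) = cl p0 σ0 (u, false) then decide (u ∈ T)
  else decide (ecl p σ u ≠ cl p0 σ0 (u, true))

/-- twisting ports -/
def ta (t : V → Bool) (w : V × Bool) : V × Bool := (w.1, xor w.2 (t w.1))

/-- the matching of ports of an oriented cycle -/
def ms (σ : Perm V) (w : V × Bool) : V × Bool := if w.2 then (σ w.1, false) else (σ⁻¹ w.1, true)

/-- the twisted matching -/
def mt (σ : Perm V) (t : V → Bool) (w : V × Bool) : V × Bool := ta t (ms σ (ta t w))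

theorem ta_ta (t : V → Bool) (w : V × Bool) : ta t (ta t w) = w := by
  obtain ⟨u, b⟩ := w
  simp [ta]

theorem ms_ms (σ : Perm V) (w : V × Bool) : ms σ (ms σ w) = w := by
  obtain ⟨u, b⟩ := w
  cases b <;> simp [ms]

theorem mt_mt (σ : Perm V) (t : V → Bool) (w : V × Bool) : mt σ t (mt σ t w) = w := by
  simp only [mt, ta_ta, ms_ms]

theorem mt_fst (σ : Perm V) (t : V → Bool) (w : V × Bool) :
    (mt σ t (ta t w)).1 = (ms σ w).1 := by
  simp only [mt, ta_ta]; rfl

section

variable {P : Fin 3 → Set (Sym2 V → ℕ)} (B : BoxH P) {σ0 : Perm V} {p0 : Fin 3 → Sym2 V → ℕ}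
  (D0 : Dec P σ0 p0) (hV : 3 ≤ Fintype.card V) {σ : Perm V} {p : Fin 3 → Sym2 V → ℕ}
  (D : Dec P σ p) (T : Finset V)

/-- class of a port of `σ` -/
noncomputable def cs (p : Fin 3 → Sym2 V → ℕ) (σ : Perm V) (w : V × Bool) : Fin 3 :=
  if w.2 then ecl p σ w.1 else ecl p σ (σ⁻¹ w.1)

theorem cs_ms (w : V × Bool) : cs p σ (ms σ w) = cs p σ w := by
  obtain ⟨u, b⟩ := w
  cases b <;> simp [cs, ms]

include B D0 hV D in
theorem cl_ta (w : V × Bool) : cl p0 σ0 (ta (tw p0 σ0 p σ T) w) = cs p σ w := by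
  obtain ⟨u, b⟩ := w
  have h := cl_cases B D0 hV D u
  by_cases hp : cl p0 σ0 (u, true) = cl p0 σ0 (u, false)
  · have h1 : ∀ b, cl p0 σ0 (u, b) = cl p0 σ0 (u, true) := by
      intro b; cases b
      · exact hp.symm
      · rfl
    have h2 : ecl p σ u = cl p0 σ0 (u, true) ∧ ecl p σ (σ⁻¹ u) = cl p0 σ0 (u, true) := by
      rcases h with ⟨a, b⟩ | ⟨a, b⟩
      · exact ⟨a, b.trans hp.symm⟩
      · exact ⟨a.trans hp.symm, b⟩
    simp only [ta]
    rw [h1]
    cases b
    · exact h2.2.symm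
    · exact h2.1.symm
  · by_cases he : ecl p σ u = cl p0 σ0 (u, true)
    · have h2 : ecl p σ (σ⁻¹ u) = cl p0 σ0 (u, false) := by
        rcases h with ⟨a, b⟩ | ⟨a, b⟩
        · exact b
        · exact absurd (he.symm.trans a) hp
      have ht : tw p0 σ0 p σ T u = false := by simp [tw, hp, he]
      simp only [ta, ht, Bool.xor_false]
      cases b
      · simpa [cs] using h2.symm
      · simpa [cs] using he.symm
    · have h2 : ecl p σ u = cl p0 σ0 (u, false) ∧ ecl p σ (σ⁻¹ u) = cl p0 σ0 (u, true) := by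
        rcases h with ⟨a, b⟩ | ⟨a, b⟩
        · exact absurd a he
        · exact ⟨a, b⟩
      have ht : tw p0 σ0 p σ T u = true := by simp [tw, hp, he]
      simp only [ta, ht, Bool.xor_true]
      cases b
      · simpa [cs] using h2.2.symm
      · simpa [cs] using h2.1.symm

include B D0 hV D in
theorem cl_mt (w : V × Bool) : cl p0 σ0 (mt σ (tw p0 σ0 p σ T) w) = cl p0 σ0 w := by
  rw [mt, cl_ta B D0 hV D, cs_ms, ← cl_ta B D0 hV D T, ta_ta]

/-- the component of the matching in a class -/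
noncomputable def fi (p0 : Fin 3 → Sym2 V → ℕ) (σ0 : Perm V) (p : Fin 3 → Sym2 V → ℕ) (σ : Perm V)
    (T : Finset V) (i : Fin 3) (w : V × Bool) : V × Bool :=
  if cl p0 σ0 w = i then mt σ (tw p0 σ0 p σ T) w else w

include B D0 hV D in
theorem fi_mem (i : Fin 3) : fi p0 σ0 p σ T i ∈ Ms P p0 σ0 i := by
  rw [mem_Ms]
  have hne : ∀ w, mt σ (tw p0 σ0 p σ T) w ≠ w := by
    intro w e
    have e1 : (mt σ (tw p0 σ0 p σ T) w).1 = w.1 := by rw [e]
    obtain ⟨w', rfl⟩ : ∃ w', w = ta (tw p0 σ0 p σ T) w' := ⟨ta (tw p0 σ0 p σ T) w, (ta_ta _ _).symm⟩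
    rw [mt_fst] at e1
    obtain ⟨u, b⟩ := w'
    cases b
    · have e2 : σ⁻¹ u = u := by simpa [ms, ta] using e1
      exact D.full.ne hV u (Perm.eq_inv_iff_eq.1 e2.symm)
    · have e2 : σ u = u := by simpa [ms, ta] using e1
      exact D.full.ne hV u e2
  refine ⟨⟨?_, ?_⟩, p i, D.mem i, ?_⟩
  · intro w
    by_cases h : cl p0 σ0 w = i
    · simp only [fi, if_pos h]
      rw [if_pos (by rw [cl_mt B D0 hV D]; exact h), mt_mt]
    · simp only [fi, if_neg h]
  · intro w
    rw [mem_Us]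
    by_cases h : cl p0 σ0 w = i
    · simp only [fi, if_pos h, h, iff_true]
      exact hne w
    · rw [fi, if_neg h]
      simp [h]
  · intro e
    have h1 : ((Us p0 σ0 i).filter (fun w => s(w.1, (fi p0 σ0 p σ T i w).1) = e)).card =
        (univ.filter (fun w => cs p σ w = i ∧ s(w.1, (ms σ w).1) = e)).card := by
      apply card_bij (fun w _ => ta (tw p0 σ0 p σ T) w)
      · intro w hw
        simp only [mem_filter, mem_Us, mem_univ, true_and] at hw ⊢
        obtain ⟨hw1, hw2⟩ := hw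
        rw [fi, if_pos hw1] at hw2
        rw [← cl_ta B D0 hV D T, ta_ta]
        refine ⟨hw1, ?_⟩
        rw [← mt_fst σ (tw p0 σ0 p σ T), ta_ta]
        exact hw2
      · intro w _ w' _ e
        rw [← ta_ta (tw p0 σ0 p σ T) w, e, ta_ta]
      · intro w hw
        simp only [mem_filter, mem_univ, true_and] at hw
        refine ⟨ta (tw p0 σ0 p σ T) w, ?_, ta_ta _ _⟩
        simp only [mem_filter, mem_Us]
        have h2 : cl p0 σ0 (ta (tw p0 σ0 p σ T) w) = i := by
          rw [cl_ta B D0 hV D]; exact hw.1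
        refine ⟨h2, ?_⟩
        rw [fi, if_pos h2, mt_fst]
        exact hw.2
    rw [h1, card_filter_ports, D.eq_card hV]
    have h2 : (univ.filter (fun u => cs p σ (u, true) = i ∧
        s((u, true).1, (ms σ (u, true)).1) = e)).card =
        (univ.filter (fun u => s(u, σ u) = e ∧ ecl p σ u = i)).card := by
      congr 1; ext u
      simp only [mem_filter, mem_univ, true_and, cs, ms, if_true]
      tauto
    have h3 : (univ.filter (fun u => cs p σ (u, false) = i ∧
        s((u, false).1, (ms σ (u, false)).1) = e)).card =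
        (univ.filter (fun u => s(u, σ u) = e ∧ ecl p σ u = i)).card := by
      apply card_bij (fun u _ => σ⁻¹ u)
      · intro u hu
        simp only [mem_filter, mem_univ, true_and, cs, ms, Bool.false_eq_true, if_false] at hu ⊢
        refine ⟨?_, hu.1⟩
        rw [← hu.2, Sym2.eq_swap, ap_inv]
      · intro u _ v _ e
        exact σ⁻¹.injective e
      · intro u hu
        refine ⟨σ u, ?_, inv_ap _ _⟩
        simp only [mem_filter, mem_univ, true_and, cs, ms, Bool.false_eq_true, if_false] at hu ⊢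
        rw [inv_ap]
        refine ⟨hu.2, ?_⟩
        rw [← hu.1, Sym2.eq_swap]
    rw [h2, h3]; ring

theorem fi_inj (D : Dec P σ p) {σ' : Perm V} {p' : Fin 3 → Sym2 V → ℕ} {T' : Finset V} (v0 : V)
    (h : ∀ i, fi p0 σ0 p σ T i = fi p0 σ0 p' σ' T' i)
    (h0 : tw p0 σ0 p σ T v0 = tw p0 σ0 p' σ' T' v0) :
    σ = σ' ∧ ∀ u, tw p0 σ0 p σ T u = tw p0 σ0 p' σ' T' u := by
  have hm : ∀ w, mt σ (tw p0 σ0 p σ T) w = mt σ' (tw p0 σ0 p' σ' T') w := by
    intro w
    have := congrFun (h (cl p0 σ0 w)) w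
    simpa [fi] using this
  have key : ∀ k : ℕ, (σ ^ k) v0 = (σ' ^ k) v0 ∧
      tw p0 σ0 p σ T ((σ ^ k) v0) = tw p0 σ0 p' σ' T' ((σ ^ k) v0) := by
    intro k
    induction k with
    | zero => exact ⟨rfl, h0⟩
    | succ k ih =>
      obtain ⟨h1, h2⟩ := ih
      have h3 : ta (tw p0 σ0 p σ T) ((σ ^ k) v0, true) =
          ta (tw p0 σ0 p' σ' T') ((σ ^ k) v0, true) := by
        simp only [ta, h2]
      have h4 := hm (ta (tw p0 σ0 p σ T) ((σ ^ k) v0, true))
      rw [mt, ta_ta, h3, mt, ta_ta] at h4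
      simp only [ms, ta, if_true, Prod.mk.injEq] at h4
      rw [pow_succ', Perm.mul_apply, pow_succ', Perm.mul_apply, ← h1]
      refine ⟨h4.1, ?_⟩
      have h5 := h4.2
      rw [← h4.1] at h5
      simpa using h5
  have hall : ∀ v, tw p0 σ0 p σ T v = tw p0 σ0 p' σ' T' v ∧ σ v = σ' v := by
    intro v
    obtain ⟨k, rfl⟩ := D.full v0 v
    refine ⟨(key k).2, ?_⟩
    have := (key (k + 1)).1
    rw [pow_succ', Perm.mul_apply, pow_succ', Perm.mul_apply, ← (key k).1] at this
    exact this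
  exact ⟨Equiv.ext (fun v => (hall v).2), fun v => (hall v).1⟩

include B hV in
open Classical in
/-- the number of (oriented) Hamiltonian cycles in a box -/
theorem box_bound :
    (univ.filter (fun σ : Perm V => ∃ p, Dec P σ p)).card * 2 ^ Fintype.card V ≤
      4 * (Fintype.card V).factorial := by
  set S := univ.filter (fun σ : Perm V => ∃ p, Dec P σ p) with hS
  rcases S.eq_empty_or_nonempty with he | ⟨σ0, hσ0⟩
  · rw [he, card_empty, zero_mul]; exact Nat.zero_le _
  obtain ⟨p0, D0⟩ : ∃ p, Dec P σ0 p := by simpa [hS] using hσ0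
  have hex : ∀ σ : Perm V, ∃ p, (∃ p, Dec P σ p) → Dec P σ p := by
    intro σ
    by_cases h : ∃ p, Dec P σ p
    · obtain ⟨p, hp⟩ := h
      exact ⟨p, fun _ => hp⟩
    · exact ⟨fun _ _ => 0, fun h' => absurd h' h⟩
  choose pc hpc using hex
  have hV1 : 0 < Fintype.card V := by omega
  obtain ⟨v0⟩ := Fintype.card_pos_iff.1 hV1
  let pu : Finset V := univ.filter (fun u => cl p0 σ0 (u, true) = cl p0 σ0 (u, false))
  have hcard : pu.card + km p0 σ0 = Fintype.card V := by
    rw [km]
    exact card_filter_add_card_filter_not (s := (univ : Finset V))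
      (fun u => cl p0 σ0 (u, true) = cl p0 σ0 (u, false))
  have hmain : (S ×ˢ pu.powerset).card ≤
      ((Fintype.piFinset (fun i => Ms P p0 σ0 i)) ×ˢ (univ : Finset Bool)).card := by
    apply card_le_card_of_injOn
      (fun x => (fun i => fi p0 σ0 (pc x.1) x.1 x.2 i, tw p0 σ0 (pc x.1) x.1 x.2 v0))
    · rintro ⟨σ, T⟩ hx
      simp only [coe_product, Set.mem_prod, mem_coe, mem_filter, hS, mem_univ, true_and] at hx
      simp only [coe_product, Set.mem_prod, mem_coe, Fintype.mem_piFinset, mem_univ, and_true]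
      intro i
      exact fi_mem B D0 hV (hpc σ hx.1) T i
    · rintro ⟨σ, T⟩ hx ⟨σ', T'⟩ hx' e
      simp only [coe_product, Set.mem_prod, mem_coe, mem_filter, hS, mem_univ, true_and,
        mem_powerset] at hx hx'
      simp only [Prod.mk.injEq] at e
      obtain ⟨e1, e2⟩ := e
      obtain ⟨rfl, h2⟩ := fi_inj T (hpc σ hx.1) v0 (fun i => congrFun e1 i) e2
      refine Prod.ext rfl ?_
      ext u
      by_cases hu : u ∈ pu
      · have h3 := h2 u
        have hu' : cl p0 σ0 (u, true) = cl p0 σ0 (u, false) := by simpa [pu] using hu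
        simp only [tw, hu', if_true, decide_eq_decide] at h3
        exact h3
      · exact ⟨fun h => absurd (hx.2 h) hu, fun h => absurd (hx'.2 h) hu⟩
  rw [card_product, card_product, card_powerset, Fintype.card_piFinset, card_univ,
    Fintype.card_bool] at hmain
  have hb := bound_ports B D0 hV
  calc S.card * 2 ^ Fintype.card V = S.card * 2 ^ pu.card * 2 ^ km p0 σ0 := by
        rw [← hcard, pow_add]; ring
    _ ≤ (∏ i, (Ms P p0 σ0 i).card) * 2 * 2 ^ km p0 σ0 := Nat.mul_le_mul_right _ hmain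
    _ = 2 * ((∏ i, (Ms P p0 σ0 i).card) * 2 ^ km p0 σ0) := by ring
    _ ≤ 2 * (2 * (Fintype.card V).factorial) := Nat.mul_le_mul_left _ hb
    _ = 4 * (Fintype.card V).factorial := by ring

end

end Pool.Agent.MonCyc
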