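/-
MP_18d1ca_lc: monotone arithmetic circuits and the descent to balanced products.
-/
import Pool.Agent.MonCyc.Label

set_option linter.all false

namespace Pool.Agent.MonCyc

open Finset MvPolynomial
open scoped NNReal

variable {τ : Type*}

/-- Monotone arithmetic circuits, as straight-line programs: the list of the polynomials computed
at the gates, the last gate first. -/
inductive MonCircuit : List (MvPolynomial τ ℝ≥0) → Prop
  | nil : MonCircuit []
  | const (c : ℝ≥0) {l : List (MvPolynomial τ ℝ≥0)} : MonCircuit l → MonCircuit (C c :: l)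
  | input (x : τ) {l : List (MvPolynomial τ ℝ≥0)} : MonCircuit l → MonCircuit (X x :: l)
  | add {f g : MvPolynomial τ ℝ≥0} {l : List (MvPolynomial τ ℝ≥0)} :
      MonCircuit l → f ∈ l → g ∈ l → MonCircuit ((f + g) :: l)
  | mul {f g : MvPolynomial τ ℝ≥0} {l : List (MvPolynomial τ ℝ≥0)} :
      MonCircuit l → f ∈ l → g ∈ l → MonCircuit ((f * g) :: l)

theorem supp_add_left {f g : MvPolynomial τ ℝ≥0} {p : τ →₀ ℕ} (h : p ∈ f.support) :
    p ∈ (f + g).support := by
  rw [mem_support_iff] at h ⊢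
  rw [coeff_add]
  intro e
  exact h (add_eq_zero.1 e).1

theorem supp_add_right {f g : MvPolynomial τ ℝ≥0} {p : τ →₀ ℕ} (h : p ∈ g.support) :
    p ∈ (f + g).support := by
  rw [add_comm]; exact supp_add_left h

theorem supp_add {f g : MvPolynomial τ ℝ≥0} {p : τ →₀ ℕ} (h : p ∈ (f + g).support) :
    p ∈ f.support ∨ p ∈ g.support := by
  rw [mem_support_iff, coeff_add] at h
  by_contra hcon
  rw [not_or, notMem_support_iff, notMem_support_iff] at hcon
  rw [hcon.1, hcon.2, add_zero] at h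
  exact h rfl

theorem supp_mul {f g : MvPolynomial τ ℝ≥0} {p : τ →₀ ℕ} (h : p ∈ (f * g).support) :
    ∃ p1 ∈ f.support, ∃ p2 ∈ g.support, p1 + p2 = p := by
  classical
  have := support_mul f g h
  rw [Finset.mem_add] at this
  obtain ⟨p1, h1, p2, h2, e⟩ := this
  exact ⟨p1, h1, p2, h2, e⟩

theorem mem_supp_mul {f g : MvPolynomial τ ℝ≥0} {p1 p2 : τ →₀ ℕ} (h1 : p1 ∈ f.support)
    (h2 : p2 ∈ g.support) : p1 + p2 ∈ (f * g).support := by
  classical
  rw [mem_support_iff] at h1 h2 ⊢
  rw [coeff_mul]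
  intro e
  have h3 := (sum_eq_zero_iff.1 e) (p1, p2) (by simp)
  rcases mul_eq_zero.1 h3 with h | h
  · exact h1 h
  · exact h2 h

/-- total degree of an exponent vector -/
noncomputable def dgr (p : τ →₀ ℕ) : ℕ := p.sum (fun _ c => c)

theorem dgr_add (p q : τ →₀ ℕ) : dgr (p + q) = dgr p + dgr q := by
  classical
  exact Finsupp.sum_add_index' (fun _ => rfl) (fun _ _ _ => rfl)

/-- the conclusion of the descent -/
def Concl (n : ℕ) (D : List (MvPolynomial τ ℝ≥0 × MvPolynomial τ ℝ≥0)) (F : MvPolynomial τ ℝ≥0)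
    (h : τ →₀ ℕ) : Prop :=
  ∃ y ∈ D, ∃ p1 ∈ y.1.support, ∃ p2 ∈ y.2.support, ∃ r, h = p1 + p2 + r ∧ 2 * dgr p1 ≤ n ∧
    2 * dgr p2 ≤ n ∧ n < 2 * (dgr p1 + dgr p2) ∧
    ∀ p1' ∈ y.1.support, ∀ p2' ∈ y.2.support, p1' + p2' + r ∈ F.support

theorem Concl.mono {n : ℕ} {D D' : List (MvPolynomial τ ℝ≥0 × MvPolynomial τ ℝ≥0)}
    (hD : D ⊆ D') {F : MvPolynomial τ ℝ≥0} {h : τ →₀ ℕ} (H : Concl n D F h) : Concl n D' F h := by
  obtain ⟨y, hy, H⟩ := H
  exact ⟨y, hD hy, H⟩

theorem descent {n : ℕ} (hn : 2 ≤ n) {l : List (MvPolynomial τ ℝ≥0)} (hl : MonCircuit l) :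
    ∃ D : List (MvPolynomial τ ℝ≥0 × MvPolynomial τ ℝ≥0), D.length ≤ l.length ∧
      ∀ f ∈ l, ∀ (F : MvPolynomial τ ℝ≥0) (p r : τ →₀ ℕ), p ∈ f.support →
        (∀ p' ∈ f.support, p' + r ∈ F.support) → n < 2 * dgr p → Concl n D F (p + r) := by
  classical
  induction hl with
  | nil => exact ⟨[], le_refl _, fun f hf => absurd hf List.not_mem_nil⟩
  | @const c l hl ih =>
    obtain ⟨D, hD, H⟩ := ih
    refine ⟨D, hD.trans (Nat.le_succ _), ?_⟩
    intro f hf F p r hp hpr hdeg
    rcases List.mem_cons.1 hf with rfl | hf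
    · exfalso
      rw [mem_support_iff, coeff_C] at hp
      by_cases h0 : 0 = p
      · rw [← h0] at hdeg
        simp [dgr] at hdeg
      · rw [if_neg h0] at hp; exact hp rfl
    · exact H f hf F p r hp hpr hdeg
  | @input x l hl ih =>
    obtain ⟨D, hD, H⟩ := ih
    refine ⟨D, hD.trans (Nat.le_succ _), ?_⟩
    intro f hf F p r hp hpr hdeg
    rcases List.mem_cons.1 hf with rfl | hf
    · exfalso
      rw [mem_support_iff, coeff_X'] at hp
      by_cases h0 : Finsupp.single x 1 = p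
      · rw [← h0] at hdeg
        simp [dgr] at hdeg
        omega
      · rw [if_neg h0] at hp; exact hp rfl
    · exact H f hf F p r hp hpr hdeg
  | @add f g l hl hf hg ih =>
    obtain ⟨D, hD, H⟩ := ih
    refine ⟨D, hD.trans (Nat.le_succ _), ?_⟩
    intro k hk F p r hp hpr hdeg
    rcases List.mem_cons.1 hk with rfl | hk
    · rcases supp_add hp with hp | hp
      · exact H f hf F p r hp (fun p' hp' => hpr p' (supp_add_left hp')) hdeg
      · exact H g hg F p r hp (fun p' hp' => hpr p' (supp_add_right hp')) hdeg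
    · exact H k hk F p r hp hpr hdeg
  | @mul f g l hl hf hg ih =>
    obtain ⟨D, hD, H⟩ := ih
    refine ⟨(f, g) :: D, Nat.succ_le_succ hD, ?_⟩
    intro k hk F p r hp hpr hdeg
    rcases List.mem_cons.1 hk with rfl | hk
    · obtain ⟨p1, h1, p2, h2, rfl⟩ := supp_mul hp
      by_cases c1 : n < 2 * dgr p1
      · have := H f hf F p1 (p2 + r) h1 (fun p' hp' => by
          rw [← add_assoc]; exact hpr _ (mem_supp_mul hp' h2)) c1
        rw [add_assoc]
        exact this.mono (List.subset_cons_self _ _)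
      · by_cases c2 : n < 2 * dgr p2
        · have := H g hg F p2 (p1 + r) h2 (fun p' hp' => by
            rw [← add_assoc, add_comm p' p1]; exact hpr _ (mem_supp_mul h1 hp')) c2
          rw [add_comm p1 p2, add_assoc]
          exact this.mono (List.subset_cons_self _ _)
        · rw [dgr_add] at hdeg
          exact ⟨(f, g), List.mem_cons_self, p1, h1, p2, h2, r, rfl, not_lt.1 c1, not_lt.1 c2,
            hdeg, fun p1' h1' p2' h2' => hpr _ (mem_supp_mul h1' h2')⟩
    · exact (H k hk F p r hp hpr hdeg).mono (List.subset_cons_self _ _)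

end Pool.Agent.MonCyc
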