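/-
MP_18d1ca_lc: the lower bound for monotone arithmetic circuits.
-/
import Pool.Agent.MonCyc.Circuit

set_option linter.all false

namespace Pool.Agent.MonCyc

open Finset MvPolynomial
open scoped NNReal

/-- exponent vector of a set of edges -/
noncomputable def ind {τ : Type*} (S : Finset τ) : τ →₀ ℕ := ∑ e ∈ S, Finsupp.single e 1

theorem prod_X {τ : Type*} (S : Finset τ) :
    (∏ e ∈ S, (X e : MvPolynomial τ ℝ≥0)) = monomial (ind S) 1 := by
  rw [ind, monomial_sum_one]
  rfl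

theorem ind_apply {τ : Type*} [DecidableEq τ] (S : Finset τ) (e : τ) :
    ind S e = if e ∈ S then 1 else 0 := by
  rw [ind, Finsupp.finset_sum_apply]
  simp only [Finsupp.single_apply]
  rw [sum_ite_eq']

theorem dgr_ind {τ : Type*} (S : Finset τ) : dgr (ind S) = S.card := by
  classical
  induction S using Finset.induction_on with
  | empty => simp [ind, dgr]
  | insert a S ha ih =>
    rw [ind, sum_insert ha, dgr_add, card_insert_of_notMem ha]
    have : dgr (Finsupp.single a 1 : τ →₀ ℕ) = 1 := by simp [dgr]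
    rw [this]
    have h2 : dgr (∑ e ∈ S, Finsupp.single e 1 : τ →₀ ℕ) = S.card := ih
    rw [h2]; ring

theorem dgr_fintype {τ : Type*} [Fintype τ] (p : τ →₀ ℕ) : dgr p = ∑ e, p e := by
  rw [dgr, Finsupp.sum_fintype]
  intro _; rfl

section

variable {n : ℕ}

/-- the cyclic permutation of an enumeration -/
def sg (t : Equiv.Perm (Fin n)) : Equiv.Perm (Fin n) := t * finRotate n * t⁻¹

theorem sg_pow (t : Equiv.Perm (Fin n)) (k : ℕ) : (sg t) ^ k = t * (finRotate n) ^ k * t⁻¹ := by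
  rw [sg, conj_pow]

open Fin.NatCast Fin.CommRing in
theorem finRotate_pow (m k : ℕ) (i : Fin (m + 1)) :
    ((finRotate (m + 1)) ^ k) i = i + (k : Fin (m + 1)) := by
  induction k with
  | zero => simp
  | succ k ih =>
    rw [pow_succ', Equiv.Perm.mul_apply, ih, finRotate_succ_apply]
    push_cast
    ring

open Fin.NatCast Fin.CommRing in
theorem sg_full (t : Equiv.Perm (Fin n)) : Full (sg t) := by
  rcases n with _ | m
  · intro u; exact u.elim0
  · intro u v
    refine ⟨(t⁻¹ v - t⁻¹ u).val, ?_⟩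
    rw [sg_pow, Equiv.Perm.mul_apply, Equiv.Perm.mul_apply, finRotate_pow, Fin.cast_val_eq_self]
    have : t⁻¹ u + (t⁻¹ v - t⁻¹ u) = t⁻¹ v := by ring
    rw [this]
    exact ap_inv t v

open Fin.NatCast Fin.CommRing in
theorem sg_inj (hn : 0 < n) {t t' : Equiv.Perm (Fin n)} (h : sg t = sg t')
    (h0 : t ⟨0, hn⟩ = t' ⟨0, hn⟩) : t = t' := by
  rcases n with _ | m
  · exact absurd hn (lt_irrefl _)
  · apply Equiv.ext
    intro i
    have key : ∀ t : Equiv.Perm (Fin (m + 1)), t i = ((sg t) ^ i.val) (t ⟨0, hn⟩) := by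
      intro t
      rw [sg_pow, Equiv.Perm.mul_apply, Equiv.Perm.mul_apply, inv_ap, finRotate_pow,
        Fin.cast_val_eq_self]
      congr 1
      have : (⟨0, hn⟩ : Fin (m + 1)) = 0 := rfl
      rw [this, zero_add]
    rw [key t, key t', h, h0]

/-- `S` is the set of edges of a cycle through `v`, of length at least three, in the complete
graph. -/
def IsCycleThrough (v : Fin n) (S : Finset (Sym2 (Fin n))) : Prop :=
  ∃ k : ℕ, 3 ≤ k ∧ ∃ a : Fin k → Fin n, Function.Injective a ∧ v ∈ Set.range a ∧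
    (S : Set (Sym2 (Fin n))) = Set.range (fun i => s(a i, a (finRotate k i)))

open Classical in
/-- generating polynomial of the cycles through `v` -/
noncomputable def cyclePoly (n : ℕ) (v : Fin n) : MvPolynomial (Sym2 (Fin n)) ℝ≥0 :=
  ∑ S ∈ univ.filter (fun S => IsCycleThrough v S), ∏ e ∈ S, X e

theorem mem_supp_cyclePoly (v : Fin n) (m : Sym2 (Fin n) →₀ ℕ) :
    m ∈ (cyclePoly n v).support ↔ ∃ S, IsCycleThrough v S ∧ ind S = m := by
  classical
  rw [mem_support_iff, cyclePoly, coeff_sum]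
  simp only [prod_X, coeff_monomial]
  rw [sum_boole, ne_eq, Nat.cast_eq_zero, card_eq_zero, ← ne_eq, ← nonempty_iff_ne_empty]
  constructor
  · rintro ⟨S, hS⟩
    simp only [mem_filter, mem_univ, true_and] at hS
    exact ⟨S, hS.1, hS.2⟩
  · rintro ⟨S, h1, h2⟩
    exact ⟨S, by simp [h1, h2]⟩

theorem ham_eq {σ : Equiv.Perm (Fin n)} (h : Full σ) (hn : 3 ≤ n) (S : Finset (Sym2 (Fin n)))
    (hS : (S : Set (Sym2 (Fin n))) = Set.range (fun u => s(u, σ u))) :
    (⇑(ind S) : Sym2 (Fin n) → ℕ) = ham σ := by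
  funext e
  rw [ind_apply]
  have hV : 3 ≤ Fintype.card (Fin n) := by simpa using hn
  by_cases he : e ∈ S
  · rw [if_pos he]
    have : e ∈ (S : Set (Sym2 (Fin n))) := he
    rw [hS] at this
    obtain ⟨u, rfl⟩ := this
    exact (ham_edge h hV u).symm
  · rw [if_neg he, ham, eq_comm, card_eq_zero, filter_eq_empty_iff]
    rintro u - hu
    apply he
    have : e ∈ (S : Set (Sym2 (Fin n))) := by rw [hS]; exact ⟨u, hu⟩
    exact this

theorem range_sg (t : Equiv.Perm (Fin n)) : Set.range (fun u => s(u, sg t u)) =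
    Set.range (fun i => s(t i, t (finRotate n i))) := by
  ext e
  constructor
  · rintro ⟨u, rfl⟩
    refine ⟨t⁻¹ u, ?_⟩
    simp only [sg, Equiv.Perm.mul_apply, ap_inv]
  · rintro ⟨i, rfl⟩
    refine ⟨t i, ?_⟩
    simp only [sg, Equiv.Perm.mul_apply, inv_ap]

theorem H1 (hn : 3 ≤ n) (v : Fin n) (t : Equiv.Perm (Fin n)) :
    ∃ m ∈ (cyclePoly n v).support, ⇑m = ham (sg t) ∧ dgr m = n := by
  classical
  let S : Finset (Sym2 (Fin n)) := univ.image (fun u => s(u, sg t u))
  have hS : (S : Set (Sym2 (Fin n))) = Set.range (fun u => s(u, sg t u)) := by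
    simp [S]
  refine ⟨ind S, ?_, ham_eq (sg_full t) hn S hS, ?_⟩
  · rw [mem_supp_cyclePoly]
    refine ⟨S, ⟨n, hn, t, t.injective, ⟨t⁻¹ v, ap_inv t v⟩, ?_⟩, rfl⟩
    rw [hS, range_sg]
  · rw [dgr_ind]
    have hV : 3 ≤ Fintype.card (Fin n) := by simpa using hn
    have : S.card = (univ : Finset (Fin n)).card :=
      card_image_of_injective _ (fun u w e => (sg_full t).edge_inj hV e)
    rw [this, card_univ, Fintype.card_fin]

theorem H2 (hn : 3 ≤ n) (v : Fin n) (m : Sym2 (Fin n) →₀ ℕ) (hm : m ∈ (cyclePoly n v).support)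
    (hd : dgr m = n) : ∃ σ : Equiv.Perm (Fin n), Full σ ∧ ⇑m = ham σ := by
  classical
  rw [mem_supp_cyclePoly] at hm
  obtain ⟨S, ⟨k, hk, a, ha, hv, hS⟩, rfl⟩ := hm
  rw [dgr_ind] at hd
  have h1 : k ≤ n := by
    have := Fintype.card_le_of_injective a ha
    simpa using this
  have h2 : n ≤ k := by
    rw [← hd]
    have : S = univ.image (fun i => s(a i, a (finRotate k i))) := by
      rw [← coe_inj, hS]; simp
    rw [this]
    exact card_image_le.trans (by simp)
  obtain rfl : k = n := le_antisymm h1 h2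
  have hb : Function.Bijective a := Finite.injective_iff_bijective.1 ha
  let t : Equiv.Perm (Fin k) := Equiv.ofBijective a hb
  refine ⟨sg t, sg_full t, ?_⟩
  refine ham_eq (sg_full t) hn S ?_
  rw [range_sg]
  exact hS

/-- the box of a product gate -/
def Pb (F : MvPolynomial (Sym2 (Fin n)) ℝ≥0)
    (y : MvPolynomial (Sym2 (Fin n)) ℝ≥0 × MvPolynomial (Sym2 (Fin n)) ℝ≥0) (a b : ℕ) :
    Fin 3 → Set (Sym2 (Fin n) → ℕ) :=
  ![{q | ∃ p ∈ y.1.support, dgr p = a ∧ ⇑p = q}, {q | ∃ p ∈ y.2.support, dgr p = b ∧ ⇑p = q},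
    {q | ∃ r : Sym2 (Fin n) →₀ ℕ, a + b + dgr r = n ∧
      (∀ p1 ∈ y.1.support, ∀ p2 ∈ y.2.support, p1 + p2 + r ∈ F.support) ∧ ⇑r = q}]

theorem box_Pb (hn : 3 ≤ n) (v : Fin n)
    (y : MvPolynomial (Sym2 (Fin n)) ℝ≥0 × MvPolynomial (Sym2 (Fin n)) ℝ≥0) {a b : ℕ}
    (ha : 2 * a ≤ n) (hb : 2 * b ≤ n) (hab : n < 2 * (a + b)) :
    BoxH (Pb (cyclePoly n v) y a b) where
  all := by
    intro q hq
    obtain ⟨p1, h1, h1a, h1q⟩ := hq 0
    obtain ⟨p2, h2, h2b, h2q⟩ := hq 1
    obtain ⟨r, hr, hrF, hrq⟩ := hq 2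
    obtain ⟨σ, hσ, hs⟩ := H2 hn v (p1 + p2 + r) (hrF p1 h1 p2 h2)
      (by rw [dgr_add, dgr_add, h1a, h2b]; exact hr)
    refine ⟨σ, hq, ?_, hσ⟩
    intro e
    rw [Fin.sum_univ_three, ← h1q, ← h2q, ← hrq, ← hs]
    rfl
  deg := by
    intro i p hp
    rw [Fintype.card_fin]
    fin_cases i
    · obtain ⟨p1, h1, h1a, rfl⟩ := hp
      rw [← dgr_fintype, h1a]; exact ha
    · obtain ⟨p1, h1, h1a, rfl⟩ := hp
      rw [← dgr_fintype, h1a]; exact hb
    · obtain ⟨r, hr, -, rfl⟩ := hp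
      rw [← dgr_fintype]; omega

/-- **Lower bound.** -/
theorem lower_bound (hn : 3 ≤ n) (v : Fin n) {l : List (MvPolynomial (Sym2 (Fin n)) ℝ≥0)}
    (hl : MonCircuit l) (hF : cyclePoly n v ∈ l) : 2 ^ n ≤ n * (n + 2) ^ 2 * l.length := by
  classical
  obtain ⟨D, hD, hdesc⟩ := descent (n := n) (by omega) hl
  have hn0 : 0 < n := by omega
  have hV : 3 ≤ Fintype.card (Fin n) := by simpa using hn
  let FC : Finset (Equiv.Perm (Fin n)) := univ.image sg
  have hFC : n.factorial ≤ FC.card * n := by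
    have h1 : (univ : Finset (Equiv.Perm (Fin n))).card ≤
        (FC ×ˢ (univ : Finset (Fin n))).card := by
      apply card_le_card_of_injOn (fun t => (sg t, t ⟨0, hn0⟩))
      · intro t _
        simp [FC]
      · intro t _ t' _ e
        simp only [Prod.mk.injEq] at e
        exact sg_inj hn0 e.1 e.2
    rw [card_product, card_univ, card_univ, Fintype.card_perm, Fintype.card_fin] at h1
    exact h1
  let J : Finset (ℕ × ℕ) := ((range (n / 2 + 1)) ×ˢ (range (n / 2 + 1))).filter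
    (fun ab => n < 2 * (ab.1 + ab.2))
  have hJ : J.card ≤ (n / 2 + 1) ^ 2 := by
    refine (card_filter_le _ _).trans ?_
    rw [card_product, card_range]
    exact le_of_eq (by ring)
  let Sb : (MvPolynomial (Sym2 (Fin n)) ℝ≥0 × MvPolynomial (Sym2 (Fin n)) ℝ≥0) → ℕ × ℕ →
      Finset (Equiv.Perm (Fin n)) := fun y ab =>
    univ.filter (fun σ => ∃ p, Dec (Pb (cyclePoly n v) y ab.1 ab.2) σ p)
  have hSb : ∀ y, ∀ ab ∈ J, (Sb y ab).card * 2 ^ n ≤ 4 * n.factorial := by
    intro y ab hab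
    simp only [J, mem_filter, mem_product, mem_range] at hab
    have hB := box_Pb hn v y (a := ab.1) (b := ab.2) (by omega) (by omega) hab.2
    have := box_bound hB hV
    rw [Fintype.card_fin] at this
    exact this
  have hcov : FC ⊆ D.toFinset.biUnion (fun y => J.biUnion (fun ab => Sb y ab)) := by
    intro σ hσ
    obtain ⟨t, -, rfl⟩ := mem_image.1 hσ
    obtain ⟨m, hm, hmh, hmd⟩ := H1 hn v t
    obtain ⟨y, hy, p1, h1, p2, h2, r, hmr, d1, d2, d3, hall⟩ :=
      hdesc (cyclePoly n v) hF (cyclePoly n v) m 0 hm (fun p' hp' => by simpa using hp')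
        (by omega)
    rw [add_zero] at hmr
    rw [mem_biUnion]
    refine ⟨y, List.mem_toFinset.2 hy, ?_⟩
    rw [mem_biUnion]
    refine ⟨(dgr p1, dgr p2), ?_, ?_⟩
    · simp only [J, mem_filter, mem_product, mem_range]
      omega
    · simp only [Sb, mem_filter, mem_univ, true_and]
      refine ⟨![⇑p1, ⇑p2, ⇑r], ?_, ?_, sg_full t⟩
      · intro i
        fin_cases i
        · exact ⟨p1, h1, rfl, rfl⟩
        · exact ⟨p2, h2, rfl, rfl⟩
        · refine ⟨r, ?_, hall, rfl⟩
          have : dgr p1 + dgr p2 + dgr r = n := by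
            rw [← dgr_add, ← dgr_add, ← hmr]; exact hmd
          exact this
      · intro e
        rw [Fin.sum_univ_three, ← hmh, hmr]
        rfl
  have hcard : FC.card * 2 ^ n ≤ D.length * ((n / 2 + 1) ^ 2 * (4 * n.factorial)) := by
    calc FC.card * 2 ^ n ≤ (D.toFinset.biUnion (fun y => J.biUnion (fun ab => Sb y ab))).card *
          2 ^ n := Nat.mul_le_mul_right _ (card_le_card hcov)
      _ ≤ (∑ y ∈ D.toFinset, ∑ ab ∈ J, (Sb y ab).card) * 2 ^ n := by
          apply Nat.mul_le_mul_right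
          refine card_biUnion_le.trans (sum_le_sum fun y _ => card_biUnion_le)
      _ = ∑ y ∈ D.toFinset, ∑ ab ∈ J, (Sb y ab).card * 2 ^ n := by
          rw [sum_mul]
          exact sum_congr rfl (fun y _ => sum_mul _ _ _)
      _ ≤ ∑ y ∈ D.toFinset, ∑ ab ∈ J, 4 * n.factorial :=
          sum_le_sum fun y _ => sum_le_sum fun ab hab => hSb y ab hab
      _ = D.toFinset.card * (J.card * (4 * n.factorial)) := by
          rw [sum_const, sum_const, smul_eq_mul, smul_eq_mul]
      _ ≤ D.length * ((n / 2 + 1) ^ 2 * (4 * n.factorial)) :=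
          Nat.mul_le_mul (List.toFinset_card_le D) (Nat.mul_le_mul_right _ hJ)
  have hfin : n.factorial * 2 ^ n ≤ n.factorial * (n * (n + 2) ^ 2 * l.length) := by
    calc n.factorial * 2 ^ n ≤ FC.card * n * 2 ^ n := Nat.mul_le_mul_right _ hFC
      _ = n * (FC.card * 2 ^ n) := by ring
      _ ≤ n * (D.length * ((n / 2 + 1) ^ 2 * (4 * n.factorial))) := Nat.mul_le_mul_left _ hcard
      _ = n.factorial * (n * (2 * (n / 2 + 1)) ^ 2 * D.length) := by ring
      _ ≤ n.factorial * (n * (n + 2) ^ 2 * l.length) := by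
          apply Nat.mul_le_mul_left
          apply Nat.mul_le_mul _ hD
          apply Nat.mul_le_mul_left
          apply Nat.pow_le_pow_left
          omega
  exact Nat.le_of_mul_le_mul_left hfin (Nat.factorial_pos n)

end

end Pool.Agent.MonCyc
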