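import Pool.Agent.MonCyc.Final

/-!
# Counting the cycles through a vertex: a lower bound for monotone arithmetic circuits
-/

namespace Pool.Agent.Results.MP_18d1ca_lc.MonotoneCircuits

open Finset MvPolynomial
open scoped NNReal

/-- Monotone arithmetic circuits over the nonnegative reals, written as straight-line programs:
the list of the polynomials computed at the gates, the last gate first.  Every gate is a
nonnegative constant, a variable, or the sum or the product of two earlier gates. -/
inductive MonCircuit {τ : Type} : List (MvPolynomial τ ℝ≥0) → Prop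
  | nil : MonCircuit []
  | const (c : ℝ≥0) {l : List (MvPolynomial τ ℝ≥0)} : MonCircuit l → MonCircuit (C c :: l)
  | input (x : τ) {l : List (MvPolynomial τ ℝ≥0)} : MonCircuit l → MonCircuit (X x :: l)
  | add {f g : MvPolynomial τ ℝ≥0} {l : List (MvPolynomial τ ℝ≥0)} :
      MonCircuit l → f ∈ l → g ∈ l → MonCircuit ((f + g) :: l)
  | mul {f g : MvPolynomial τ ℝ≥0} {l : List (MvPolynomial τ ℝ≥0)} :
      MonCircuit l → f ∈ l → g ∈ l → MonCircuit ((f * g) :: l)

/-- `S` is the set of edges of a cycle through `v` (of any length `k ≥ 3`) of the complete graph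
on the vertices `0, …, n - 1`: its edges join consecutive terms of a cyclic sequence of `k`
distinct vertices, one of which is `v`.  (`finRotate k` sends `i` to `i + 1` and the last index
to `0`.) -/
def IsCycleThrough {n : ℕ} (v : Fin n) (S : Finset (Sym2 (Fin n))) : Prop :=
  ∃ k : ℕ, 3 ≤ k ∧ ∃ a : Fin k → Fin n, Function.Injective a ∧ v ∈ Set.range a ∧
    (S : Set (Sym2 (Fin n))) = Set.range (fun i => s(a i, a (finRotate k i)))

open Classical in
/-- The generating polynomial of the cycles through `v`: the sum over all cycles through `v` of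
the complete graph of the product of the variables of their edges. -/
noncomputable def cyclePoly (n : ℕ) (v : Fin n) : MvPolynomial (Sym2 (Fin n)) ℝ≥0 :=
  ∑ S ∈ univ.filter (fun S => IsCycleThrough v S), ∏ e ∈ S, X e

open Classical in
/-- The value of `cyclePoly n v` at the adjacency vector of a graph `G` is the number of cycles of
`G` through `v`. -/
theorem eval_cyclePoly (n : ℕ) (v : Fin n) (G : SimpleGraph (Fin n)) :
    eval (fun e => if e ∈ G.edgeSet then 1 else 0) (cyclePoly n v) =
      ((univ.filter (fun S : Finset (Sym2 (Fin n)) =>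
        IsCycleThrough v S ∧ (S : Set (Sym2 (Fin n))) ⊆ G.edgeSet)).card : ℝ≥0) := by
  rw [cyclePoly, map_sum, ← filter_filter, ← sum_boole]
  apply sum_congr rfl
  intro S _
  rw [map_prod]
  simp only [eval_X]
  by_cases h : (S : Set (Sym2 (Fin n))) ⊆ G.edgeSet
  · rw [if_pos h]
    exact prod_eq_one (fun e he => if_pos (h he))
  · rw [if_neg h]
    rw [Set.not_subset] at h
    obtain ⟨e, he, he'⟩ := h
    exact prod_eq_zero he (if_neg he')

/-- translation to the definition used in the proof -/
theorem toMon {τ : Type} {l : List (MvPolynomial τ ℝ≥0)} (h : MonCircuit l) :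
    MonCyc.MonCircuit l := by
  induction h with
  | nil => exact .nil
  | const c _ ih => exact .const c ih
  | input x _ ih => exact .input x ih
  | add _ hf hg ih => exact .add ih hf hg
  | mul _ hf hg ih => exact .mul ih hf hg

/-- Every monotone arithmetic circuit that computes the generating polynomial of the cycles
through a vertex of `K_n` has at least `2 ^ n / (n (n + 2) ^ 2)` gates. -/
theorem result (n : ℕ) (hn : 3 ≤ n) (v : Fin n) (l : List (MvPolynomial (Sym2 (Fin n)) ℝ≥0))
    (hl : MonCircuit l) (hZ : cyclePoly n v ∈ l) :
    2 ^ n ≤ n * (n + 2) ^ 2 * l.length :=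
  MonCyc.lower_bound hn v (toMon hl) hZ

end Pool.Agent.Results.MP_18d1ca_lc.MonotoneCircuits
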